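import Pool.Agent.H899R2.VP.Basic

set_option autoImplicit false

/-! The boundedness lemma for back-and-forth ranks (helper899). -/

namespace Pool.Agent.H899R2.VP

open Set

variable {a : ℕ → ℕ}

theorem isClosed_piso (q : Set (ℕ × ℕ)) : IsClosed {P : St a × St a | PIso P.1 P.2 q} := by
  have h2 : IsClosed {P : St a × St a | ∀ u ∈ q, ∀ v ∈ q, P.1.1 u.1 v.1 = P.2.1 u.2 v.2} := by
    simp only [ofPred_forall]
    refine isClosed_iInter fun u => isClosed_iInter fun _ => isClosed_iInter fun v =>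
      isClosed_iInter fun _ => isClosed_eq ?_ ?_
    · exact (continuous_apply v.1).comp ((continuous_apply u.1).comp
        (continuous_fst.comp continuous_fst))
    · exact (continuous_apply v.2).comp ((continuous_apply u.2).comp
        (continuous_fst.comp continuous_snd))
  have h3 : IsClosed {P : St a × St a | ∀ (i : ℕ) (t : Fin (a i) → ℕ × ℕ), (∀ k, t k ∈ q) →
      P.1.2 i (fun k => (t k).1) = P.2.2 i (fun k => (t k).2)} := by
    simp only [ofPred_forall]
    refine isClosed_iInter fun i => isClosed_iInter fun t => isClosed_iInter fun _ =>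
      isClosed_eq ?_ ?_
    · exact (continuous_apply _).comp ((continuous_apply i).comp
        (continuous_snd.comp continuous_fst))
    · exact (continuous_apply _).comp ((continuous_apply i).comp
        (continuous_snd.comp continuous_snd))
  by_cases h1 : ∀ u ∈ q, ∀ v ∈ q, (u.1 = v.1 ↔ u.2 = v.2)
  · convert h2.inter h3 using 1
    ext P
    exact ⟨fun h => ⟨h.2.1, h.2.2⟩, fun h => ⟨h1, h.1, h.2⟩⟩
  · convert isClosed_empty using 1
    ext P
    exact ⟨fun h => h1 h.1, fun h => h.elim⟩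

/-- Pigeonhole over the countable ordinals. -/
theorem pigeon {κ : Type} [Countable κ] (P : Ordinal.{0} → κ → Prop)
    (hanti : ∀ β γ k, γ ≤ β → P β k → P γ k)
    (h : ∀ β, β < Ordinal.omega 1 → ∃ k, P β k) :
    ∃ k, ∀ β, β < Ordinal.omega 1 → P β k := by
  classical
  by_contra hc
  push Not at hc
  choose b hb1 hb2 using hc
  have hs : iSup b < Ordinal.omega 1 := Ordinal.iSup_lt_omega_one hb1
  obtain ⟨k, hk⟩ := h _ hs
  exact hb2 k (hanti _ _ k (Ordinal.le_iSup b k) hk)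

/-- invariant of the construction -/
def BInv (f : (ℕ → ℕ) → St a × St a) (n : ℕ) (s : ℕ → ℕ) (q : Set (ℕ × ℕ)) : Prop :=
  ∀ β : Ordinal.{0}, β < Ordinal.omega 1 → ∃ z : ℕ → ℕ, (∀ i < n, z i = s i) ∧
    BF (f z).1 (f z).2 univ univ β q

theorem BInv.step {f : (ℕ → ℕ) → St a × St a} {n : ℕ} {s : ℕ → ℕ} {q : Set (ℕ × ℕ)}
    (h : BInv f n s q) : ∃ k x y : ℕ,
      BInv f (n + 1) (Function.update s n k) (insert (x, n) (insert (n, y) q)) := by
  obtain ⟨⟨k, x, y⟩, hk⟩ := pigeon (κ := ℕ × ℕ × ℕ)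
    (fun β κ => ∃ z : ℕ → ℕ, (∀ i < n, z i = s i) ∧ z n = κ.1 ∧
      BF (f z).1 (f z).2 univ univ β (insert (κ.2.1, n) (insert (n, κ.2.2) q)))
    (by
      rintro β γ κ hγ ⟨z, h1, h2, h3⟩
      exact ⟨z, h1, h2, h3.mono hγ⟩)
    (by
      intro β hβ
      have hs : β + 1 + 1 < Ordinal.omega 1 :=
        (Cardinal.isSuccLimit_omega 1).add_one_lt ((Cardinal.isSuccLimit_omega 1).add_one_lt hβ)
      obtain ⟨z, hz1, hz2⟩ := h _ hs
      obtain ⟨y, -, hy⟩ := hz2.forth (o' := β + 1) (lt_add_one _) (mem_univ n)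
      obtain ⟨x, -, hx⟩ := hy.back (o' := β) (lt_add_one _) (mem_univ n)
      exact ⟨(z n, x, y), z, hz1, rfl, hx⟩)
  refine ⟨k, x, y, fun β hβ => ?_⟩
  obtain ⟨z, h1, h2, h3⟩ := hk β hβ
  refine ⟨z, fun i hi => ?_, h3⟩
  rcases Nat.lt_succ_iff_lt_or_eq.1 hi with hi | rfl
  · rw [Function.update_of_ne hi.ne]; exact h1 i hi
  · rw [Function.update_self]; exact h2

/-- Boundedness: a continuous family of pairs of structures which contains pairs equivalent at
every countable rank contains an isomorphic pair. -/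
theorem bounding (f : (ℕ → ℕ) → St a × St a) (hf : Continuous f) (q : Set (ℕ × ℕ))
    (h : ∀ β : Ordinal.{0}, β < Ordinal.omega 1 → ∃ z, BF (f z).1 (f z).2 univ univ β q) :
    ∃ z, IsoOn (f z).1 (f z).2 univ univ q := by
  classical
  have h0 : BInv f 0 (fun _ => 0) q := by
    intro β hβ
    obtain ⟨z, hz⟩ := h β hβ
    exact ⟨z, fun i hi => absurd hi (Nat.not_lt_zero i), hz⟩
  -- the sequence of states
  obtain ⟨S, hS0, hS⟩ : ∃ S : ℕ → (ℕ → ℕ) × Set (ℕ × ℕ), S 0 = (fun _ => 0, q) ∧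
      ∀ n, BInv f n (S n).1 (S n).2 ∧ ∃ k x y : ℕ, S (n + 1) =
        (Function.update (S n).1 n k, insert (x, n) (insert (n, y) (S n).2)) := by
    have hst : ∀ n (σ : {σ : (ℕ → ℕ) × Set (ℕ × ℕ) // BInv f n σ.1 σ.2}),
        ∃ τ : {σ : (ℕ → ℕ) × Set (ℕ × ℕ) // BInv f (n + 1) σ.1 σ.2}, ∃ k x y : ℕ,
          τ.1 = (Function.update σ.1.1 n k, insert (x, n) (insert (n, y) σ.1.2)) := by
      rintro n ⟨σ, hσ⟩
      obtain ⟨k, x, y, hh⟩ := hσ.step
      exact ⟨⟨_, hh⟩, k, x, y, rfl⟩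
    choose F hF using hst
    let G : ∀ n, {σ : (ℕ → ℕ) × Set (ℕ × ℕ) // BInv f n σ.1 σ.2} :=
      fun n => Nat.rec ⟨(fun _ => 0, q), h0⟩ (fun n σ => F n σ) n
    exact ⟨fun n => (G n).1, rfl, fun n => ⟨(G n).2, hF n (G n)⟩⟩
  choose hinv k x y hstep using hS
  set z : ℕ → ℕ := fun i => (S (i + 1)).1 i with hz
  have hmono : ∀ n, (S n).2 ⊆ (S (n + 1)).2 := by
    intro n
    rw [hstep n]
    exact (subset_insert _ _).trans (subset_insert _ _)
  have hmono' : Monotone fun n => (S n).2 := monotone_nat_of_le_succ hmono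
  have hpre : ∀ n, ∀ i < n, (S n).1 i = z i := by
    intro n
    induction n with
    | zero => intro i hi; exact absurd hi (Nat.not_lt_zero i)
    | succ n ih =>
      intro i hi
      rcases Nat.lt_succ_iff_lt_or_eq.1 hi with hi | rfl
      · rw [hstep n]
        simp only [Function.update_of_ne hi.ne]
        exact ih i hi
      · rfl
  have hp : ∀ n, PIso (f z).1 (f z).2 (S n).2 := by
    intro n
    have hzm : ∀ m, ∃ w : ℕ → ℕ, (∀ i < m, w i = z i) ∧
        (n ≤ m → PIso (f w).1 (f w).2 (S n).2) := by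
      intro m
      obtain ⟨w, hw1, hw2⟩ := hinv m 0 (Ordinal.omega_pos 1)
      exact ⟨w, fun i hi => (hw1 i hi).trans (hpre m i hi),
        fun hnm => hw2.piso.mono (hmono' hnm)⟩
    choose w hw1 hw2 using hzm
    have hlim : Filter.Tendsto w Filter.atTop (nhds z) := by
      rw [tendsto_pi_nhds]
      intro i
      apply tendsto_const_nhds.congr'
      filter_upwards [Filter.eventually_gt_atTop i] with m hm
      exact (hw1 m i hm).symm
    have hlim2 := (hf.tendsto z).comp hlim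
    exact (isClosed_piso (S n).2).mem_of_tendsto hlim2
      (by filter_upwards [Filter.eventually_ge_atTop n] with m hm using hw2 m hm)
  refine ⟨z, ⋃ n, (S n).2, ?_, fun _ _ => ⟨mem_univ _, mem_univ _⟩, ?_, ?_, ?_⟩
  · refine Subset.trans ?_ (subset_iUnion _ 0)
    rw [hS0]
  · refine ⟨?_, ?_, ?_⟩
    · intro u hu v hv
      obtain ⟨n, hn⟩ := mem_iUnion.1 hu
      obtain ⟨m, hm⟩ := mem_iUnion.1 hv
      exact (hp (max n m)).1 u (hmono' (le_max_left _ _) hn) v (hmono' (le_max_right _ _) hm)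
    · intro u hu v hv
      obtain ⟨n, hn⟩ := mem_iUnion.1 hu
      obtain ⟨m, hm⟩ := mem_iUnion.1 hv
      exact (hp (max n m)).2.1 u (hmono' (le_max_left _ _) hn) v
        (hmono' (le_max_right _ _) hm)
    · intro i t ht
      choose n hn using fun k => mem_iUnion.1 (ht k)
      exact (hp (Finset.univ.sup n)).2.2 i t fun k =>
        hmono' (Finset.le_sup (Finset.mem_univ k)) (hn k)
  · intro x' _
    refine ⟨y x', mem_iUnion.2 ⟨x' + 1, ?_⟩⟩
    rw [hstep x']
    exact Or.inr (Or.inl rfl)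
  · intro y' _
    refine ⟨x y', mem_iUnion.2 ⟨y' + 1, ?_⟩⟩
    rw [hstep y']
    exact Or.inl rfl

end Pool.Agent.H899R2.VP
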