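import Pool.Agent.H899R2.VP.Bnd
import Pool.Agent.H899R2.VP.Dst

set_option autoImplicit false

/-! A continuous family indexed by the Cantor space of structures in the class, pairwise
non-isomorphic over a finite set, is impossible (perfect-set form, helper899). -/

namespace Pool.Agent.H899R2.VP

open Set

variable {a : ℕ → ℕ}

theorem not_countable_cantor : ¬ Countable (ℕ → Bool) := by
  have h1 : Cardinal.aleph0 < Cardinal.mk (ℕ → Bool) := by
    have h2 : Cardinal.mk (ℕ → Bool) = Cardinal.continuum := by simp
    rw [h2]
    exact Cardinal.aleph0_lt_continuum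
  intro h
  exact absurd (Cardinal.mk_le_aleph0_iff.2 h) (not_le.2 h1)

theorem few_base {K : Set (St a)} (hK : MeasurableSet K)
    (few : ¬ ∃ g : (ℕ → Bool) → St a, Continuous g ∧ (∀ c, g c ∈ K) ∧
      ∀ c d, IsoOn (g c) (g d) univ univ ∅ → c = d)
    {F : Set ℕ} (hF : F.Finite) (g : (ℕ → Bool) → St a) (hgc : Continuous g)
    (hg : ∀ c, g c ∈ K)
    (h : ∀ c d, IsoOn (g c) (g d) univ univ (idOn F) → c = d) : False := by
  classical
  -- parametrisation of the pairs of branches which differ at `i`
  set C : ℕ × Bool → (ℕ → ℕ) → (ℕ → Bool) := fun κ z =>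
    Function.update (fun j => z (2 * j) == 0) κ.1 κ.2 with hC
  set D : ℕ × Bool → (ℕ → ℕ) → (ℕ → Bool) := fun κ z =>
    Function.update (fun j => z (2 * j + 1) == 0) κ.1 (!κ.2) with hD
  have hCc : ∀ κ, Continuous (C κ) := by
    intro κ
    refine Continuous.update ?_ κ.1 continuous_const
    exact continuous_pi fun j => (continuous_of_discreteTopology (f := fun n : ℕ => n == 0)).comp
      (continuous_apply (2 * j))
  have hDc : ∀ κ, Continuous (D κ) := by
    intro κ
    refine Continuous.update ?_ κ.1 continuous_const
    exact continuous_pi fun j => (continuous_of_discreteTopology (f := fun n : ℕ => n == 0)).comp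
      (continuous_apply (2 * j + 1))
  have hb : ∀ κ : ℕ × Bool, ∃ β : Ordinal.{0}, β < Ordinal.omega 1 ∧
      ∀ z, ¬ BF (g (C κ z)) (g (D κ z)) univ univ β (idOn F) := by
    intro κ
    by_contra hcon
    push Not at hcon
    obtain ⟨z, hz⟩ := bounding (fun z => (g (C κ z), g (D κ z)))
      ((hgc.comp (hCc κ)).prodMk (hgc.comp (hDc κ))) (idOn F) hcon
    have := congrFun (h _ _ hz) κ.1
    simp only [hC, hD, Function.update_self] at this
    cases hκ : κ.2 <;> simp [hκ] at this
  choose b hb1 hb2 using hb
  have hs : iSup b < Ordinal.omega 1 := Ordinal.iSup_lt_omega_one hb1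
  obtain ⟨c, hc⟩ := labels hK few (iSup b) hs
  set s : List ℕ := hF.toFinset.toList with hsdef
  have hinj : Function.Injective fun e : ℕ → Bool => c (g e) s := by
    intro e e' hee
    by_contra hne
    obtain ⟨i, hi⟩ := Function.ne_iff.1 hne
    have hBF := hc (g e) (hg e) (g e') (hg e') s s rfl hee
    have hBF2 : BF (g e) (g e') univ univ (iSup b) (idOn F) := by
      refine hBF.subset ?_
      rintro ⟨u, v⟩ ⟨h1, h2⟩
      simp only at h1 h2
      subst h1
      have : u ∈ s := by simp [hsdef, h2]
      obtain ⟨n, hn, hn2⟩ := List.getElem_of_mem this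
      show (u, u) ∈ s.zip s
      rw [List.mem_iff_getElem]
      exact ⟨n, by simpa using hn, by simp [hn2]⟩
    set z : ℕ → ℕ := fun j => if j % 2 = 0 then (if e (j / 2) = true then 0 else 1)
      else (if e' (j / 2) = true then 0 else 1) with hz
    have h1 : C (i, e i) z = e := by
      funext j
      by_cases hj : j = i
      · subst hj; simp [hC]
      · simp only [hC, Function.update_of_ne hj, hz]
        have e1 : 2 * j % 2 = 0 := by omega
        have e2 : 2 * j / 2 = j := by omega
        rw [if_pos e1, e2]
        cases e j <;> simp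
    have h2 : D (i, e i) z = e' := by
      funext j
      by_cases hj : j = i
      · subst hj
        simp only [hD, Function.update_self]
        cases h3 : e j <;> cases h4 : e' j <;> simp_all
      · simp only [hD, Function.update_of_ne hj, hz]
        have e1 : ¬ (2 * j + 1) % 2 = 0 := by omega
        have e2 : (2 * j + 1) / 2 = j := by omega
        rw [if_neg e1, e2]
        cases e' j <;> simp
    refine hb2 (i, e i) z ?_
    rw [h1, h2]
    exact hBF2.mono (Ordinal.le_iSup b _)
  exact not_countable_cantor hinj.countable

end Pool.Agent.H899R2.VP
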