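import Pool.Agent.H899R2.VP.Final
import Pool.Agent.H899R2.VP.Bnd

set_option autoImplicit false

/-! Vaught's conjecture in perfect-set form for Borel classes of structures whose Gaifman graphs
contain no subdivision of the infinite complete graph (helper899). -/

namespace Pool.Agent.H899R2.VP

open Set MeasureTheory

variable {a : ℕ → ℕ}

theorem polish_of {X : Type*} [TopologicalSpace X] [h1 : SecondCountableTopology X]
    [h2 : TopologicalSpace.IsCompletelyMetrizableSpace X] : PolishSpace X := { h1, h2 with }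

/-- A Borel isomorphism-invariant class is closed under back-and-forth equivalence of some
countable rank. -/
theorem closed_rank {K : Set (St a)} (hK : MeasurableSet K)
    (hinv : ∀ M ∈ K, ∀ N : St a, IsoOn M N univ univ ∅ → N ∈ K) :
    ∃ α : Ordinal.{0}, α < Ordinal.omega 1 ∧ ∀ M ∈ K, ∀ N : St a,
      BF M N univ univ α ∅ → N ∈ K := by
  by_contra hcon
  push Not at hcon
  have b1 : BorelSpace ((i : ℕ) → (Fin (a i) → ℕ) → Bool) := inferInstance
  have b2 : BorelSpace (ℕ → ℕ → Bool) := inferInstance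
  have s1 : SecondCountableTopology (St a) := inferInstance
  have b3 : BorelSpace (St a) := inferInstance
  have b4 : BorelSpace (St a × St a) := inferInstance
  have b5 : PolishSpace (St a × St a) := polish_of
  have han : AnalyticSet (K ×ˢ Kᶜ) := (hK.prod hK.compl).analyticSet
  rw [AnalyticSet] at han
  rcases han with he | ⟨f, hf, hr⟩
  · obtain ⟨M, hM, N, -, hN⟩ := hcon 0 (Ordinal.omega_pos 1)
    have : (M, N) ∈ K ×ˢ Kᶜ := ⟨hM, hN⟩
    rw [he] at this
    exact this
  · obtain ⟨z, hz⟩ := bounding f hf ∅ (by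
      intro β hβ
      obtain ⟨M, hM, N, hb, hN⟩ := hcon β hβ
      have : (M, N) ∈ range f := by rw [hr]; exact ⟨hM, hN⟩
      obtain ⟨z, hz⟩ := this
      exact ⟨z, by rw [hz]; exact hb⟩)
    have h1 : f z ∈ K ×ˢ Kᶜ := by rw [← hr]; exact mem_range_self z
    exact h1.2 (hinv _ h1.1 _ hz)

theorem measurable_expandB {B : Set (RS a)} (hB : MeasurableSet B) :
    MeasurableSet {M : St a | M.2 ∈ B ∧ M = expand M.2} := by
  classical
  have key : MeasurableSet {M : St a | M = expand M.2} := by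
    have h1 : {M : St a | M = expand M.2} = {M : St a | ∀ x y : ℕ, (M.1 x y = true) ↔
        (x ≠ y ∧ ∃ i, ∃ v : Fin (a i) → ℕ, M.2 i v = true ∧ x ∈ range v ∧ y ∈ range v)} := by
      ext M
      constructor
      · intro h x y
        have h2 : M.1 x y = decide ((gaifman M.2).Adj x y) :=
          congrFun (congrFun (congrArg Prod.fst h) x) y
        rw [h2, decide_eq_true_iff]
        rfl
      · intro h
        refine Prod.ext ?_ rfl
        funext x y
        change M.1 x y = decide ((gaifman M.2).Adj x y)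
        rw [Bool.eq_iff_iff, decide_eq_true_iff]
        exact h x y
    rw [h1]
    apply measurableSet_setOfPred.2
    refine Measurable.forall fun x => Measurable.forall fun y => ?_
    refine Measurable.iff ?_ ?_
    · apply measurableSet_setOfPred.1
      have h2 : Measurable (fun M : St a => M.1 x y) :=
        (measurable_pi_apply y).comp ((measurable_pi_apply x).comp measurable_fst)
      exact h2 (measurableSet_singleton true)
    · refine Measurable.and measurable_const ?_
      refine Measurable.exists fun i => Measurable.exists fun v => ?_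
      refine Measurable.and ?_ measurable_const
      apply measurableSet_setOfPred.1
      have h2 : Measurable (fun M : St a => M.2 i v) :=
        (measurable_pi_apply v).comp ((measurable_pi_apply i).comp measurable_snd)
      exact h2 (measurableSet_singleton true)
  exact (measurable_snd hB).inter key

/-- Vaught's conjecture, perfect-set form, for Borel classes. -/
theorem vaught_borel (a : ℕ → ℕ) (B : Set (RS a)) (hB : MeasurableSet B)
    (hinv : ∀ x y : RS a, ∀ σ : Equiv.Perm ℕ,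
      (∀ (i : ℕ) (v : Fin (a i) → ℕ), y i (⇑σ ∘ v) = x i v) → (x ∈ B ↔ y ∈ B))
    (hsub : ∀ M ∈ B, ¬ HasCliqueSubdivision (gaifman M)) :
    (∃ f : ℕ → RS a, ∀ x ∈ B, ∃ n : ℕ, ∃ σ : Equiv.Perm ℕ,
      ∀ (i : ℕ) (v : Fin (a i) → ℕ), x i (⇑σ ∘ v) = f n i v) ∨
    (∃ g : (ℕ → Bool) → RS a, Continuous g ∧ (∀ c, g c ∈ B) ∧
      ∀ c d : ℕ → Bool, (∃ σ : Equiv.Perm ℕ, ∀ (i : ℕ) (v : Fin (a i) → ℕ),
        g d i (⇑σ ∘ v) = g c i v) → c = d) := by
  by_cases hg : ∃ g : (ℕ → Bool) → RS a, Continuous g ∧ (∀ c, g c ∈ B) ∧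
      ∀ c d : ℕ → Bool, (∃ σ : Equiv.Perm ℕ, ∀ (i : ℕ) (v : Fin (a i) → ℕ),
        g d i (⇑σ ∘ v) = g c i v) → c = d
  · exact Or.inr hg
  left
  set K : Set (St a) := {M : St a | M.2 ∈ B ∧ M = expand M.2} with hKdef
  have hKm : MeasurableSet K := measurable_expandB hB
  have hKinv : ∀ M ∈ K, ∀ N : St a, IsoOn M N univ univ ∅ → N ∈ K := by
    classical
    rintro M ⟨hM1, hM2⟩ N hMN
    obtain ⟨e, -, he⟩ := hMN.exists_equiv
    have hrel : ∀ (i : ℕ) (v : Fin (a i) → ℕ), N.2 i (⇑e ∘ v) = M.2 i v := fun i v =>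
      (he.2.2 i (fun k => (v k, e (v k))) (fun k => rfl)).symm
    refine ⟨(hinv M.2 N.2 e hrel).1 hM1, Prod.ext ?_ rfl⟩
    funext x y
    have h1 : M.1 (e.symm x) (e.symm y) = N.1 x y := by
      have := he.2.1 (e.symm x, e (e.symm x)) rfl (e.symm y, e (e.symm y)) rfl
      simpa using this
    have h2 : M.1 (e.symm x) (e.symm y) = decide ((gaifman M.2).Adj (e.symm x) (e.symm y)) :=
      congrFun (congrFun (congrArg Prod.fst hM2) _) _
    rw [← h1, h2]
    change _ = decide ((gaifman N.2).Adj x y)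
    refine decide_eq_decide.2 ?_
    constructor
    · rintro ⟨h3, i, w, h4, ⟨j, hj⟩, ⟨k, hk⟩⟩
      refine ⟨fun h5 => h3 (by rw [h5]), i, ⇑e ∘ w, ?_, ⟨j, ?_⟩, ⟨k, ?_⟩⟩
      · rw [hrel]; exact h4
      · simp [hj]
      · simp [hk]
    · rintro ⟨h3, i, w, h4, ⟨j, hj⟩, ⟨k, hk⟩⟩
      refine ⟨fun h5 => h3 (e.symm.injective h5), i, ⇑e.symm ∘ w, ?_, ⟨j, ?_⟩, ⟨k, ?_⟩⟩
      · rw [← hrel]
        have : ⇑e ∘ (⇑e.symm ∘ w) = w := by ext; simp
        rw [this]; exact h4
      · simp [hj]
      · simp [hk]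
  obtain ⟨α₀, hα₀, hcl⟩ := closed_rank hKm hKinv
  have hω : Ordinal.omega0 < Ordinal.omega.{0} 1 := by
    rw [← Ordinal.omega_zero]; exact Ordinal.omega_lt_omega.2 one_pos
  set α : Ordinal.{0} := Ordinal.omega0 * Ordinal.omega0 + α₀ with hα
  have habs : Ordinal.omega0 + α = α := by
    rw [hα, ← add_assoc]
    congr 1
    have : Ordinal.omega0 + Ordinal.omega0 * Ordinal.omega0
        = Ordinal.omega0.{0} * (1 + Ordinal.omega0) := by
      rw [mul_add, mul_one]
    rw [this, Ordinal.one_add_omega0]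
  have hK : Good α K := by
    refine ⟨hKm, ?_, habs, ?_, ?_, ?_, ?_, ?_⟩
    · refine Ordinal.isPrincipal_add_omega 1 ?_ hα₀
      exact Ordinal.isPrincipal_mul_omega 1 hω hω
    · exact fun M hM N hb => hcl M hM N (hb.mono le_add_self)
    · rintro M ⟨-, hM⟩ x y h
      rw [hM, adj_expand] at h ⊢
      exact h.symm
    · rintro M ⟨-, hM⟩ i t h j k
      by_cases he : t j = t k
      · exact Or.inl he
      · right
        rw [hM, adj_expand]
        exact ⟨he, i, t, h, ⟨j, rfl⟩, ⟨k, rfl⟩⟩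
    · rintro M ⟨hM1, hM⟩ X hX
      by_contra hcon
      push Not at hcon
      refine hsub M.2 hM1 (hasCliqueSubdivision _ X hX ?_)
      intro x hx y hy hxy F hF hxF hyF
      obtain ⟨n, hn⟩ := hcon x hx y hy hxy F hF hxF hyF
      rw [hM] at hn
      exact walk_of_path M.2 hn
    · rintro ⟨g, hgc, hg1, hg2⟩
      refine hg ⟨fun c => (g c).2, continuous_snd.comp hgc, fun c => (hg1 c).1, ?_⟩
      rintro c d ⟨σ, hσ⟩
      refine hg2 c d ?_
      rw [(hg1 c).2, (hg1 d).2]
      exact iso_of_perm σ hσ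
  obtain ⟨f, hf⟩ := good_countable hK
  refine ⟨fun n => (f n).2, fun x hx => ?_⟩
  obtain ⟨n, hn⟩ := hf (expand x) ⟨hx, rfl⟩
  obtain ⟨σ, hσ⟩ := perm_of_iso hn
  refine ⟨n, σ.symm, fun i v => ?_⟩
  have := hσ i (⇑σ.symm ∘ v)
  have h2 : ⇑σ ∘ (⇑σ.symm ∘ v) = v := by ext; simp
  rw [h2] at this
  exact this.symm

end Pool.Agent.H899R2.VP
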