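import Pool.Agent.H899R2.VP.Defs

set_option autoImplicit false

/-!
# Basic facts on partial isomorphisms and back-and-forth relations
-/

namespace Pool.Agent.H899R2.VP

open Set

variable {a : ℕ → ℕ} {M N K : St a} {X Y Z : Set ℕ} {p q : Set (ℕ × ℕ)} {o : Ordinal.{0}}

theorem BF_iff : BF M N X Y o p ↔ PIso M N p ∧ ∀ o' : Ordinal.{0}, o' < o →
    (∀ x ∈ X, ∃ y ∈ Y, BF M N X Y o' (insert (x, y) p)) ∧
    (∀ y ∈ Y, ∃ x ∈ X, BF M N X Y o' (insert (x, y) p)) := by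
  rw [BF]

theorem BF.piso (h : BF M N X Y o p) : PIso M N p := (BF_iff.1 h).1

theorem BF.forth (h : BF M N X Y o p) {o' : Ordinal.{0}} (ho : o' < o) {x : ℕ} (hx : x ∈ X) :
    ∃ y ∈ Y, BF M N X Y o' (insert (x, y) p) := ((BF_iff.1 h).2 o' ho).1 x hx

theorem BF.back (h : BF M N X Y o p) {o' : Ordinal.{0}} (ho : o' < o) {y : ℕ} (hy : y ∈ Y) :
    ∃ x ∈ X, BF M N X Y o' (insert (x, y) p) := ((BF_iff.1 h).2 o' ho).2 y hy

theorem BF.mono {o' : Ordinal.{0}} (h : BF M N X Y o p) (ho : o' ≤ o) : BF M N X Y o' p := by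
  rw [BF_iff] at h ⊢
  exact ⟨h.1, fun o'' ho'' => h.2 o'' (lt_of_lt_of_le ho'' ho)⟩

theorem PIso.mono (h : PIso M N q) (hpq : p ⊆ q) : PIso M N p :=
  ⟨fun u hu v hv => h.1 u (hpq hu) v (hpq hv), fun u hu v hv => h.2.1 u (hpq hu) v (hpq hv),
    fun i t ht => h.2.2 i t fun k => hpq (ht k)⟩

theorem BF.subset (h : BF M N X Y o q) (hpq : p ⊆ q) : BF M N X Y o p := by
  induction o using WellFoundedLT.induction generalizing p q with
  | ind o ih =>
    rw [BF_iff] at h ⊢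
    refine ⟨h.1.mono hpq, fun o' ho' => ⟨fun x hx => ?_, fun y hy => ?_⟩⟩
    · obtain ⟨y, hy, hb⟩ := (h.2 o' ho').1 x hx
      exact ⟨y, hy, ih o' ho' hb (insert_subset_insert hpq)⟩
    · obtain ⟨x, hx, hb⟩ := (h.2 o' ho').2 y hy
      exact ⟨x, hx, ih o' ho' hb (insert_subset_insert hpq)⟩

theorem mem_inv {u : ℕ × ℕ} : u ∈ inv p ↔ (u.2, u.1) ∈ p := Iff.rfl

theorem mem_inv' {x y : ℕ} : (x, y) ∈ inv p ↔ (y, x) ∈ p := Iff.rfl

theorem inv_inv : inv (inv p) = p := by ext u; rfl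

theorem inv_insert (x y : ℕ) : inv (insert (x, y) p) = insert (y, x) (inv p) := by
  ext ⟨u, v⟩
  simp [inv, Prod.ext_iff, and_comm]

theorem inv_mono (h : p ⊆ q) : inv p ⊆ inv q := fun _ hu => h hu

theorem PIso.symm (h : PIso M N p) : PIso N M (inv p) := by
  refine ⟨fun u hu v hv => (h.1 _ hu _ hv).symm, fun u hu v hv => (h.2.1 _ hu _ hv).symm,
    fun i t ht => ?_⟩
  exact (h.2.2 i (fun k => ((t k).2, (t k).1)) ht).symm

theorem BF.symm (h : BF M N X Y o p) : BF N M Y X o (inv p) := by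
  induction o using WellFoundedLT.induction generalizing p with
  | ind o ih =>
    rw [BF_iff] at h ⊢
    refine ⟨h.1.symm, fun o' ho' => ⟨fun x hx => ?_, fun y hy => ?_⟩⟩
    · obtain ⟨y, hy, hb⟩ := (h.2 o' ho').2 x hx
      exact ⟨y, hy, by rw [← inv_insert]; exact ih o' ho' hb⟩
    · obtain ⟨x, hx, hb⟩ := (h.2 o' ho').1 y hy
      exact ⟨x, hx, by rw [← inv_insert]; exact ih o' ho' hb⟩

theorem PIso.comp (h : PIso M N p) (h' : PIso N K q) : PIso M K (comp p q) := by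
  refine ⟨?_, ?_, ?_⟩
  · rintro u ⟨w, hw1, hw2⟩ v ⟨w', hw1', hw2'⟩
    exact (h.1 _ hw1 _ hw1').trans (h'.1 _ hw2 _ hw2')
  · rintro u ⟨w, hw1, hw2⟩ v ⟨w', hw1', hw2'⟩
    exact (h.2.1 _ hw1 _ hw1').trans (h'.2.1 _ hw2 _ hw2')
  · intro i t ht
    choose w hw1 hw2 using ht
    exact (h.2.2 i (fun k => ((t k).1, w k)) hw1).trans (h'.2.2 i (fun k => (w k, (t k).2)) hw2)

theorem comp_insert_subset (x y z : ℕ) :
    insert (x, z) (VP.comp p q) ⊆ VP.comp (insert (x, y) p) (insert (y, z) q) := by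
  rintro u (rfl | ⟨w, h1, h2⟩)
  · exact ⟨y, Or.inl rfl, Or.inl rfl⟩
  · exact ⟨w, Or.inr h1, Or.inr h2⟩

theorem BF.comp (h : BF M N X Y o p) (h' : BF N K Y Z o q) : BF M K X Z o (comp p q) := by
  induction o using WellFoundedLT.induction generalizing p q with
  | ind o ih =>
    rw [BF_iff] at h h' ⊢
    refine ⟨h.1.comp h'.1, fun o' ho' => ⟨fun x hx => ?_, fun z hz => ?_⟩⟩
    · obtain ⟨y, hy, hb⟩ := (h.2 o' ho').1 x hx
      obtain ⟨z, hz, hc⟩ := (h'.2 o' ho').1 y hy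
      exact ⟨z, hz, (ih o' ho' hb hc).subset (comp_insert_subset x y z)⟩
    · obtain ⟨y, hy, hc⟩ := (h'.2 o' ho').2 z hz
      obtain ⟨x, hx, hb⟩ := (h.2 o' ho').2 y hy
      exact ⟨x, hx, (ih o' ho' hb hc).subset (comp_insert_subset x y z)⟩

theorem PIso.idOn (M : St a) (S : Set ℕ) : PIso M M (idOn S) := by
  refine ⟨?_, ?_, ?_⟩
  · rintro ⟨u, u'⟩ ⟨h1, _⟩ ⟨v, v'⟩ ⟨h2, _⟩
    simp only at h1 h2
    subst h1 h2
    exact Iff.rfl
  · rintro ⟨u, u'⟩ ⟨h1, _⟩ ⟨v, v'⟩ ⟨h2, _⟩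
    simp only at h1 h2
    subst h1 h2
    rfl
  · intro i t ht
    have : (fun k => (t k).1) = fun k => (t k).2 := funext fun k => (ht k).1
    rw [this]

theorem mem_idOn {S : Set ℕ} {x y : ℕ} : (x, y) ∈ idOn S ↔ x = y ∧ x ∈ S := Iff.rfl

theorem idOn_self {S : Set ℕ} {x : ℕ} (h : x ∈ S) : (x, x) ∈ idOn S := ⟨rfl, h⟩

theorem idOn_mono {S T : Set ℕ} (h : S ⊆ T) : idOn S ⊆ idOn T := fun _ hu => ⟨hu.1, h hu.2⟩

theorem inv_idOn (S : Set ℕ) : inv (idOn S) = idOn S := by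
  ext ⟨u, v⟩
  simp only [inv, idOn, Set.mem_ofPred_eq]
  constructor
  · rintro ⟨h, h'⟩; exact ⟨h.symm, h ▸ h'⟩
  · rintro ⟨h, h'⟩; exact ⟨h.symm, h ▸ h'⟩

theorem comp_idOn_left {S : Set ℕ} (h : ∀ u ∈ p, u.1 ∈ S) : comp (idOn S) p = p := by
  ext ⟨u, v⟩
  constructor
  · rintro ⟨w, ⟨h1, _⟩, h2⟩
    simp only at h1 h2
    rw [h1]; exact h2
  · intro hu
    exact ⟨u, ⟨rfl, h (u, v) hu⟩, hu⟩

theorem comp_idOn_right {S : Set ℕ} (h : ∀ u ∈ p, u.2 ∈ S) : comp p (idOn S) = p := by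
  ext ⟨u, v⟩
  constructor
  · rintro ⟨w, h1, ⟨h2, _⟩⟩
    simp only at h1 h2
    rw [← h2]; exact h1
  · intro hu
    exact ⟨v, hu, ⟨rfl, h _ hu⟩⟩

theorem IsoOn.mono (h : IsoOn M N X Y q) (hpq : p ⊆ q) : IsoOn M N X Y p := by
  obtain ⟨r, h1, h2⟩ := h
  exact ⟨r, hpq.trans h1, h2⟩

theorem IsoOn.refl (M : St a) (X : Set ℕ) : IsoOn M M X X (idOn X) := by
  refine ⟨idOn X, Subset.rfl, ?_, PIso.idOn M X, fun x hx => ⟨x, rfl, hx⟩, fun x hx => ⟨x, rfl, hx⟩⟩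
  rintro ⟨u, v⟩ ⟨h, h'⟩
  simp only at h h'
  subst h
  exact ⟨h', h'⟩

theorem IsoOn.symm (h : IsoOn M N X Y p) : IsoOn N M Y X (inv p) := by
  obtain ⟨q, h1, h2, h3, h4, h5⟩ := h
  refine ⟨inv q, inv_mono h1, ?_, h3.symm, h5, h4⟩
  intro u hu
  exact ⟨(h2 hu).2, (h2 hu).1⟩

theorem IsoOn.trans (h : IsoOn M N X Y p) (h' : IsoOn N K Y Z q) :
    IsoOn M K X Z (comp p q) := by
  obtain ⟨r, h1, h2, h3, h4, h5⟩ := h
  obtain ⟨s, h1', h2', h3', h4', h5'⟩ := h'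
  refine ⟨comp r s, ?_, ?_, h3.comp h3', ?_, ?_⟩
  · rintro u ⟨w, hw1, hw2⟩
    exact ⟨w, h1 hw1, h1' hw2⟩
  · rintro u ⟨w, hw1, hw2⟩
    exact ⟨(h2 hw1).1, (h2' hw2).2⟩
  · intro x hx
    obtain ⟨y, hy⟩ := h4 x hx
    obtain ⟨z, hz⟩ := h4' y (h2 hy).2
    exact ⟨z, y, hy, hz⟩
  · intro z hz
    obtain ⟨y, hy⟩ := h5' z hz
    obtain ⟨x, hx⟩ := h5 y (h2' hy).1
    exact ⟨x, y, hx, hy⟩

/-- A total partial isomorphism wins every game. -/
theorem BF_of_total (h2 : q ⊆ X ×ˢ Y) (h3 : PIso M N q) (h4 : ∀ x ∈ X, ∃ y, (x, y) ∈ q)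
    (h5 : ∀ y ∈ Y, ∃ x, (x, y) ∈ q) : BF M N X Y o q := by
  induction o using WellFoundedLT.induction with
  | ind o ih =>
    rw [BF_iff]
    refine ⟨h3, fun o' ho' => ⟨fun x hx => ?_, fun y hy => ?_⟩⟩
    · obtain ⟨y, hy⟩ := h4 x hx
      refine ⟨y, (h2 hy).2, ?_⟩
      rw [insert_eq_of_mem hy]
      exact ih o' ho'
    · obtain ⟨x, hx⟩ := h5 y hy
      refine ⟨x, (h2 hx).1, ?_⟩
      rw [insert_eq_of_mem hx]
      exact ih o' ho'

theorem IsoOn.bf (h : IsoOn M N X Y p) (o : Ordinal.{0}) : BF M N X Y o p := by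
  obtain ⟨q, h1, h2, h3, h4, h5⟩ := h
  exact (BF_of_total h2 h3 h4 h5).subset h1

theorem BF.refl (M : St a) (X : Set ℕ) (o : Ordinal.{0}) : BF M M X X o (idOn X) :=
  (IsoOn.refl M X).bf o

theorem PIso.fst_eq (h : PIso M N p) {x x' y y' : ℕ} (h1 : (x, x') ∈ p) (h2 : (y, y') ∈ p)
    (he : x' = y') : x = y := (h.1 _ h1 _ h2).2 he

theorem PIso.snd_eq (h : PIso M N p) {x x' y y' : ℕ} (h1 : (x, x') ∈ p) (h2 : (y, y') ∈ p)
    (he : x = y) : x' = y' := (h.1 _ h1 _ h2).1 he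

theorem PIso.adj (h : PIso M N p) {x x' y y' : ℕ} (h1 : (x, x') ∈ p) (h2 : (y, y') ∈ p) :
    Adj M x y ↔ Adj N x' y' := by
  have := h.2.1 _ h1 _ h2
  unfold Adj
  simp only at this
  rw [this]

theorem zipSet_nil_left (t : List ℕ) : zipSet [] t = ∅ := by ext u; simp [zipSet]

theorem zipSet_cons (x y : ℕ) (s t : List ℕ) :
    zipSet (x :: s) (y :: t) = insert (x, y) (zipSet s t) := by
  ext u; simp [zipSet]

theorem inv_zipSet (s t : List ℕ) : inv (zipSet s t) = zipSet t s := by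
  induction s generalizing t with
  | nil => cases t <;> simp [zipSet, inv]
  | cons x s ih =>
    cases t with
    | nil => simp [zipSet, inv]
    | cons y t => rw [zipSet_cons, zipSet_cons, inv_insert, ih]

theorem mem_zipSet_left {s t : List ℕ} {x y : ℕ} (h : (x, y) ∈ zipSet s t) : x ∈ s :=
  (List.of_mem_zip h).1

theorem mem_zipSet_right {s t : List ℕ} {x y : ℕ} (h : (x, y) ∈ zipSet s t) : y ∈ t :=
  (List.of_mem_zip h).2

theorem exists_zipSet_left {s t : List ℕ} (hl : s.length = t.length) {x : ℕ} (h : x ∈ s) :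
    ∃ y, (x, y) ∈ zipSet s t := by
  induction s generalizing t with
  | nil => simp at h
  | cons z s ih =>
    cases t with
    | nil => simp at hl
    | cons w t =>
      simp only [zipSet_cons]
      rcases List.mem_cons.1 h with rfl | h
      · exact ⟨w, Or.inl rfl⟩
      · obtain ⟨y, hy⟩ := ih (by simpa using hl) h
        exact ⟨y, Or.inr hy⟩

theorem exists_zipSet_right {s t : List ℕ} (hl : s.length = t.length) {y : ℕ} (h : y ∈ t) :
    ∃ x, (x, y) ∈ zipSet s t := by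
  obtain ⟨x, hx⟩ := exists_zipSet_left hl.symm h
  refine ⟨x, ?_⟩
  have : (x, y) ∈ inv (zipSet t s) := hx
  rwa [inv_zipSet] at this

/-- Answering a finite list. -/
theorem BF.forth_list {n : ℕ} (h : BF M N X Y (o + n) p) (s : List ℕ) (hs : s.length ≤ n)
    (hsX : ∀ x ∈ s, x ∈ X) :
    ∃ t : List ℕ, t.length = s.length ∧ (∀ y ∈ t, y ∈ Y) ∧ BF M N X Y o (p ∪ zipSet s t) := by
  induction s generalizing n p with
  | nil =>
    refine ⟨[], rfl, by simp, ?_⟩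
    rw [zipSet_nil_left, union_empty]
    exact h.mono (le_self_add)
  | cons x s ih =>
    cases n with
    | zero => simp at hs
    | succ n =>
      have hlt : o + (n : Ordinal.{0}) < o + ((n + 1 : ℕ) : Ordinal.{0}) := by
        gcongr
        exact Nat.lt_succ_self n
      obtain ⟨y, hy, hb⟩ := h.forth hlt (hsX x (by simp))
      obtain ⟨t, ht, htY, hbt⟩ := ih hb (by simpa using hs) (fun z hz => hsX z (by simp [hz]))
      refine ⟨y :: t, by simp [ht], by simpa using ⟨hy, htY⟩, ?_⟩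
      rw [zipSet_cons, union_insert, ← insert_union]
      exact hbt

theorem BF.back_list {n : ℕ} (h : BF M N X Y (o + n) p) (t : List ℕ) (ht : t.length ≤ n)
    (htY : ∀ y ∈ t, y ∈ Y) :
    ∃ s : List ℕ, s.length = t.length ∧ (∀ x ∈ s, x ∈ X) ∧ BF M N X Y o (p ∪ zipSet s t) := by
  obtain ⟨s, hs, hsX, hb⟩ := h.symm.forth_list t ht htY
  refine ⟨s, hs, hsX, ?_⟩
  have := hb.symm
  have he : inv (inv p ∪ zipSet t s) = p ∪ zipSet s t := by
    ext u
    constructor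
    · rintro (h | h)
      · exact Or.inl h
      · right; rw [← inv_zipSet]; exact h
    · rintro (h | h)
      · exact Or.inl h
      · right; rw [← inv_zipSet t s] at h; exact h
  rwa [he] at this

/-- Rank `o + ω` is the conjunction of the ranks `o + n`. -/
theorem BF_add_omega : BF M N X Y (o + Ordinal.omega0) p ↔ ∀ n : ℕ, BF M N X Y (o + n) p := by
  constructor
  · intro h n
    exact h.mono (by gcongr; exact (Ordinal.natCast_lt_omega0 n).le)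
  · intro h
    rw [BF_iff]
    refine ⟨(h 0).piso, fun o' ho' => ?_⟩
    rcases lt_or_ge o' o with hlt | hge
    · have h1 : o' < o + ((1 : ℕ) : Ordinal.{0}) := hlt.trans_le le_self_add
      exact ⟨fun x hx => (h 1).forth h1 hx, fun y hy => (h 1).back h1 hy⟩
    · obtain ⟨c, rfl⟩ := le_iff_exists_add.1 hge
      have hc : c < Ordinal.omega0 := by
        by_contra hcc
        exact absurd ho' (not_lt.2 (by gcongr; exact not_lt.1 hcc))
      obtain ⟨n, rfl⟩ := Ordinal.lt_omega0.1 hc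
      have h1 : o + (n : Ordinal.{0}) < o + ((n + 1 : ℕ) : Ordinal.{0}) := by
        gcongr
        exact Nat.lt_succ_self n
      exact ⟨fun x hx => (h (n + 1)).forth h1 hx, fun y hy => (h (n + 1)).back h1 hy⟩

end Pool.Agent.H899R2.VP
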