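import Pool.Agent.H899R2.VP.Glue

set_option autoImplicit false

/-! Continuity of glueing (helper899). -/

namespace Pool.Agent.H899R2.VP

open Set

variable {a : ℕ → ℕ} {M : St a} {C : ℕ → Set ℕ}

theorem continuous_of_iff {T : Type*} [TopologicalSpace T] {f g : T → Bool} (P : Prop)
    (hg : Continuous g) (h : ∀ z, f z = true ↔ P ∧ g z = true) : Continuous f := by
  classical
  have : f = fun z => decide P && g z := by
    funext z
    apply bool_eq_of_iff
    rw [h z]
    simp
  rw [this]
  exact (continuous_of_discreteTopology (f := fun b : Bool => decide P && b)).comp hg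

theorem glue_cont {T : Type*} [TopologicalSpace T] (hC : Fam M C) (G : T → ℕ → St a)
    (hG : ∀ j, Continuous fun z => G z j) : Continuous fun z => glue M C (G z) := by
  classical
  refine continuous_prodMk.2 ⟨?_, ?_⟩
  · refine continuous_pi fun x => continuous_pi fun y => ?_
    by_cases hx : ∃ j, x ∈ C j
    · obtain ⟨j, hj⟩ := hx
      refine continuous_of_iff (y ∈ cl M (C j)) (g := fun z => (G z j).1 x y) ?_
        (fun z => glue_adj_left hC hj)
      exact (continuous_apply y).comp ((continuous_apply x).comp (continuous_fst.comp (hG j)))
    · by_cases hy : ∃ j, y ∈ C j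
      · obtain ⟨j, hj⟩ := hy
        refine continuous_of_iff (x ∈ cl M (C j)) (g := fun z => (G z j).1 x y) ?_
          (fun z => glue_adj_right hC hj)
        exact (continuous_apply y).comp ((continuous_apply x).comp (continuous_fst.comp (hG j)))
      · push Not at hx hy
        refine continuous_of_iff True (g := fun _ => M.1 x y) continuous_const (fun z => ?_)
        rw [true_and]
        exact glue_adj_out hx hy
  · refine continuous_pi fun i => continuous_pi fun t => ?_
    by_cases ht : ∃ j k, t k ∈ C j
    · obtain ⟨j, k, hk⟩ := ht
      refine continuous_of_iff (∀ k, t k ∈ cl M (C j)) (g := fun z => (G z j).2 i t) ?_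
        (fun z => glue_rel_at hC hk)
      exact (continuous_apply t).comp ((continuous_apply i).comp (continuous_snd.comp (hG j)))
    · push Not at ht
      refine continuous_of_iff True (g := fun _ => M.2 i t) continuous_const (fun z => ?_)
      rw [true_and]
      exact glue_rel_out ht

theorem ite_cont {τ : St a} (n : ℕ) :
    Continuous fun z : ℕ → Bool => (if z n = true then τ else M) :=
  (continuous_of_discreteTopology (f := fun b : Bool => if b = true then τ else M)).comp
    (continuous_apply n)

end Pool.Agent.H899R2.VP
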