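import Pool.Agent.H899R2.VP.Comb
import Pool.Agent.H899R2.VP.Few
import Pool.Agent.H899R2.VP.GlueCont

set_option autoImplicit false

/-! No combs of big flaps (task ANTI). -/

namespace Pool.Agent.H899R2.VP

open Set

variable {a : ℕ → ℕ}

/-! ### Strong recursion with choice -/

/-- Auxiliary recursion. -/
noncomputable def recSeq {X : Type*} (x0 : X) (f : ℕ → (ℕ → X) → X) (k : ℕ) : X :=
  f k (fun i => if _h : i < k then recSeq x0 f i else x0)
termination_by k

theorem exists_strong_rec {X : Type*} (x0 : X) (P : ℕ → (ℕ → X) → X → Prop)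
    (hP : ∀ k τ, ∃ σ, P k τ σ)
    (hcongr : ∀ k τ τ' σ, (∀ i < k, τ i = τ' i) → P k τ σ → P k τ' σ) :
    ∃ τ : ℕ → X, ∀ k, P k τ (τ k) := by
  choose f hf using hP
  refine ⟨recSeq x0 f, fun k => ?_⟩
  have h := hf k (fun i => if _h : i < k then recSeq x0 f i else x0)
  rw [show f k (fun i => if _h : i < k then recSeq x0 f i else x0) = recSeq x0 f k by
    rw [recSeq]] at h
  refine hcongr k _ _ _ ?_ h
  intro i hi
  simp only [hi, dite_true]

/-! ### Isomorphisms as permutations of `ℕ` -/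

theorem IsoOn.exists_equiv {N N' : St a} {p : Set (ℕ × ℕ)} (h : IsoOn N N' univ univ p) :
    ∃ e : ℕ ≃ ℕ, (∀ u ∈ p, e u.1 = u.2) ∧ PIso N N' {u | u.2 = e u.1} := by
  obtain ⟨q, hpq, -, hq, h1, h2⟩ := h
  choose f hf using fun x => h1 x (mem_univ x)
  choose g hg using fun y => h2 y (mem_univ y)
  refine ⟨⟨f, g, fun x => ?_, fun y => ?_⟩, fun u hu => ?_, ?_⟩
  · exact hq.fst_eq (hg (f x)) (hf x) rfl
  · exact hq.snd_eq (hf (g y)) (hg y) rfl
  · exact hq.snd_eq (hf u.1) (hpq hu) rfl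
  · refine hq.mono ?_
    rintro ⟨u, v⟩ (rfl : v = f u)
    exact hf u

section equiv

variable {N N' : St a} {e : ℕ ≃ ℕ} (he : PIso N N' {u | u.2 = e u.1})

include he

theorem piso_equiv_symm : PIso N' N {u | u.2 = e.symm u.1} := by
  refine he.symm.mono ?_
  rintro ⟨u, v⟩ (rfl : v = e.symm u)
  show (u : ℕ) = e (e.symm u)
  simp

theorem adj_equiv (x y : ℕ) : Adj N x y ↔ Adj N' (e x) (e y) :=
  he.adj (show (x, e x) ∈ {u : ℕ × ℕ | u.2 = e u.1} from rfl) rfl

theorem path_equiv {B : Set ℕ} {n x y : ℕ} (h : Path N B n x y) :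
    Path N' (e '' B) n (e x) (e y) := by
  induction h with
  | nil h => exact Path.nil (fun hx => h (by simpa using hx))
  | cons h h1 h2 ih =>
    exact Path.cons (fun hx => h (by simpa using hx)) ((adj_equiv he _ _).1 h1) ih

theorem nbr_equiv (C : Set ℕ) : nbr N' (e '' C) = e '' nbr N C := by
  ext s
  constructor
  · rintro ⟨h1, c, ⟨c', hc', rfl⟩, h2⟩
    refine ⟨e.symm s, ⟨?_, c', hc', ?_⟩, by simp⟩
    · intro hs
      exact h1 ⟨_, hs, by simp⟩
    · rw [adj_equiv he]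
      simpa using h2
  · rintro ⟨s', ⟨h1, c, hc, h2⟩, rfl⟩
    refine ⟨by simpa using h1, e c, ⟨c, hc, rfl⟩, (adj_equiv he _ _).1 h2⟩

theorem connSet_equiv {C : Set ℕ} (hC : ConnSet N C) : ConnSet N' (e '' C) := by
  rintro _ ⟨x, hx, rfl⟩ _ ⟨y, hy, rfl⟩
  obtain ⟨n, hn⟩ := hC x hx y hy
  refine ⟨n, ?_⟩
  have := path_equiv he hn
  rwa [image_compl_eq e.bijective] at this

theorem flap_equiv {C : Set ℕ} (hC : Flap N C) : Flap N' (e '' C) := by
  refine ⟨hC.1.image _, connSet_equiv he hC.2.1, ?_⟩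
  rw [nbr_equiv he]
  exact hC.2.2.image _

theorem cl_equiv (C : Set ℕ) : cl N' (e '' C) = e '' cl N C := by
  unfold cl
  rw [nbr_equiv he, image_union]

theorem fiso_equiv {τ : St a} {C S V : Set ℕ} (h : FIso τ C S N V) :
    FIso τ C S N' (e '' V) := by
  obtain ⟨q, h1, h2, h3, h4, h5⟩ := h
  refine ⟨comp q {u | u.2 = e u.1}, h1.comp he, ?_, ?_, ?_, ?_⟩
  · rintro ⟨u, v⟩ ⟨w, hw, hv⟩
    simp only [Set.mem_ofPred_eq] at hv
    subst hv
    refine ⟨(h2 hw).1, ?_⟩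
    rw [cl_equiv he]
    exact ⟨w, (h2 hw).2, rfl⟩
  · intro x hx
    obtain ⟨y, hy⟩ := h3 x hx
    exact ⟨e y, y, hy, rfl⟩
  · intro y hy
    rw [cl_equiv he] at hy
    obtain ⟨w, hw, rfl⟩ := hy
    obtain ⟨x, hx⟩ := h4 w hw
    exact ⟨x, w, hx, rfl⟩
  · rintro ⟨u, v⟩ ⟨w, hw, hv⟩
    simp only [Set.mem_ofPred_eq] at hv
    subst hv
    rw [nbr_equiv he]
    simp only [mem_image_equiv, Equiv.symm_apply_apply]
    exact h5 _ hw

end equiv

/-! ### Agreement of two structures -/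

section agree

variable {N N' : St a} {X E : Set ℕ} (h : PIso N N' (idOn X))

include h

theorem adj_agree {x y : ℕ} (hx : x ∈ X) (hy : y ∈ X) : Adj N x y ↔ Adj N' x y :=
  h.adj (idOn_self hx) (idOn_self hy)

theorem nbr_agree (h1 : cl N E ⊆ X) (h2 : cl N' E ⊆ X) : nbr N' E = nbr N E := by
  ext s
  constructor
  · rintro ⟨hs, c, hc, hcs⟩
    refine ⟨hs, c, hc, ?_⟩
    exact (adj_agree h (h1 (Or.inl hc)) (h2 (Or.inr ⟨hs, c, hc, hcs⟩))).2 hcs
  · rintro ⟨hs, c, hc, hcs⟩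
    refine ⟨hs, c, hc, ?_⟩
    exact (adj_agree h (h1 (Or.inl hc)) (h1 (Or.inr ⟨hs, c, hc, hcs⟩))).1 hcs

theorem path_agree (h1 : E ⊆ X) {n x y : ℕ} (hP : Path N Eᶜ n x y) : Path N' Eᶜ n x y := by
  induction hP with
  | nil h => exact Path.nil h
  | cons hx ha hp ih =>
    refine Path.cons hx ((adj_agree h (h1 ?_) (h1 ?_)).1 ha) ih
    · simpa using hx
    · simpa using hp.left_notMem

theorem flap_agree (h1 : cl N E ⊆ X) (h2 : cl N' E ⊆ X) (hE : Flap N E) : Flap N' E := by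
  refine ⟨hE.1, ?_, ?_⟩
  · intro x hx y hy
    obtain ⟨n, hn⟩ := hE.2.1 x hx y hy
    exact ⟨n, path_agree h (subset_union_left.trans h1) hn⟩
  · rw [nbr_agree h h1 h2]
    exact hE.2.2

theorem fiso_agree {τ : St a} {C S : Set ℕ} (h1 : cl N E ⊆ X) (h2 : cl N' E ⊆ X)
    (hF : FIso τ C S N E) : FIso τ C S N' E := by
  obtain ⟨q, g1, g2, g3, g4, g5⟩ := hF
  have hn := nbr_agree h h1 h2
  have hc : cl N' E = cl N E := by unfold cl; rw [hn]
  refine ⟨q, ?_, ?_, g3, ?_, ?_⟩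
  · have := g1.comp h
    rwa [comp_idOn_right (fun u hu => h1 (g2 hu).2)] at this
  · rw [hc]; exact g2
  · rw [hc]; exact g4
  · rw [hn]; exact g5

end agree

theorem glue_agree {M : St a} {C : ℕ → Set ℕ} {τ τ' : ℕ → St a} {X : Set ℕ}
    (h : ∀ j, ∀ x ∈ X, x ∈ C j → τ j = τ' j) :
    PIso (glue M C τ) (glue M C τ') (idOn X) := by
  refine ⟨?_, ?_, ?_⟩
  · rintro ⟨u, u'⟩ ⟨h1, _⟩ ⟨v, v'⟩ ⟨h2, _⟩
    simp only at h1 h2
    subst h1 h2
    exact Iff.rfl
  · rintro ⟨u, u'⟩ ⟨h1, hu⟩ ⟨v, v'⟩ ⟨h2, hv⟩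
    simp only at h1 h2 hu hv
    subst h1 h2
    have key : ∀ j, ((u ∈ C j ∨ v ∈ C j) ∧ u ∈ cl M (C j) ∧ v ∈ cl M (C j) ∧
        (τ j).1 u v = true) ↔ ((u ∈ C j ∨ v ∈ C j) ∧ u ∈ cl M (C j) ∧ v ∈ cl M (C j) ∧
        (τ' j).1 u v = true) := by
      intro j
      constructor
      · rintro ⟨h1, h2, h3, h4⟩
        have := h1.elim (h j u hu) (h j v hv)
        exact ⟨h1, h2, h3, this ▸ h4⟩
      · rintro ⟨h1, h2, h3, h4⟩
        have := h1.elim (h j u hu) (h j v hv)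
        exact ⟨h1, h2, h3, this ▸ h4⟩
    exact decide_eq_decide.2 (or_congr (exists_congr key) Iff.rfl)
  · intro i t ht
    have e1 : (fun k => (t k).1) = fun k => (t k).2 := funext fun k => (ht k).1
    have hX : ∀ k, (t k).2 ∈ X := fun k => (ht k).1 ▸ (ht k).2
    rw [e1]
    have key : ∀ j, ((∃ k, (t k).2 ∈ C j) ∧ (∀ k, (t k).2 ∈ cl M (C j)) ∧
        (τ j).2 i (fun k => (t k).2) = true) ↔ ((∃ k, (t k).2 ∈ C j) ∧
        (∀ k, (t k).2 ∈ cl M (C j)) ∧ (τ' j).2 i (fun k => (t k).2) = true) := by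
      intro j
      constructor
      · rintro ⟨⟨k, h1⟩, h2, h4⟩
        have := h j _ (hX k) h1
        exact ⟨⟨k, h1⟩, h2, this ▸ h4⟩
      · rintro ⟨⟨k, h1⟩, h2, h4⟩
        have := h j _ (hX k) h1
        exact ⟨⟨k, h1⟩, h2, this ▸ h4⟩
    exact decide_eq_decide.2 (or_congr (exists_congr key) Iff.rfl)

/-- A path entering `U` meets its separator. -/
theorem exists_first {N : St a} (hs : ∀ x y, Adj N x y → Adj N y x) {D U Y : Set ℕ}
    (hU : nbr N U ⊆ D ∪ Y) {n x z : ℕ} (hP : Path N D n x z) (hx : x ∉ U) (hz : z ∈ U ∪ Y) :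
    ∃ m ≤ n, ∃ y ∈ Y, Path N D m x y := by
  induction hP with
  | nil h =>
    rcases hz with hz | hz
    · exact absurd hz hx
    · exact ⟨0, le_rfl, _, hz, Path.nil h⟩
  | @cons n x y z h h1 h2 ih =>
    by_cases hxY : x ∈ Y
    · exact ⟨0, Nat.zero_le _, x, hxY, Path.nil h⟩
    by_cases hy : y ∈ U
    · exfalso
      rcases hU ⟨hx, y, hy, hs _ _ h1⟩ with hD | hY
      · exact h hD
      · exact hxY hY
    · obtain ⟨m, hm, w, hw, hp⟩ := ih hy hz
      exact ⟨m + 1, by omega, w, hw, Path.cons h h1 hp⟩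

/-! ### The structures attached to subsets of a comb -/

open Classical in
/-- Replace the flaps `C i`, `i ∈ w`, by `τ i`. -/
noncomputable def mw (M : St a) (C : ℕ → Set ℕ) (τ : ℕ → St a) (w : Set ℕ) : St a :=
  glue M C (fun i => if i ∈ w then τ i else M)

section comb

variable {α : Ordinal.{0}} {M : St a} {D : Set ℕ} {U Y C : ℕ → Set ℕ}

theorem Comb.disj_UD (h : Comb α M D U Y C) (i : ℕ) : Disjoint (U i) D := by
  rw [Set.disjoint_left]
  intro x hx hD
  have : x ∈ VP.nbr M (U i) := by rw [h.chain.nbr]; exact Or.inl hD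
  exact this.1 hx

theorem Comb.disj_UY (h : Comb α M D U Y C) (i : ℕ) : Disjoint (U i) (Y i) := by
  rw [Set.disjoint_left]
  intro x hx hD
  have : x ∈ VP.nbr M (U i) := by rw [h.chain.nbr]; exact Or.inr hD
  exact this.1 hx

theorem Comb.disj_CD (h : Comb α M D U Y C) (k : ℕ) : Disjoint (C k) D :=
  (h.disj_UD (2 * k)).mono_left (h.sub k)

theorem Comb.disj_CY (h : Comb α M D U Y C) (k i : ℕ) : Disjoint (C k) (Y i) := by
  rcases le_or_gt i (2 * k) with hi | hi
  · exact (h.disj_UY i).mono_left ((h.sub k).trans (h.chain.anti hi))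
  · rcases Nat.lt_or_ge (2 * k + 1) i with h2 | h2
    · obtain ⟨j, rfl⟩ : ∃ j, i = j + 1 := ⟨i - 1, by omega⟩
      have h3 : Y (j + 1) ⊆ U (2 * k + 1) :=
        (subset_union_right.trans (h.chain.step j)).trans (h.chain.anti (by omega))
      exact (h.disj k).mono_right (h3.trans subset_union_left)
    · have : i = 2 * k + 1 := by omega
      subst this
      exact (h.disj k).mono_right subset_union_right

theorem Comb.disj_CU (h : Comb α M D U Y C) {k i : ℕ} (hi : 2 * k + 1 ≤ i) :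
    Disjoint (C k) (U i) :=
  (h.disj k).mono_right ((h.chain.anti hi).trans subset_union_left)

theorem Comb.sub_CU (h : Comb α M D U Y C) {k i : ℕ} (hi : i ≤ 2 * k) : C k ⊆ U i :=
  (h.sub k).trans (h.chain.anti hi)

theorem Comb.fam (h : Comb α M D U Y C) : Fam M C := by
  refine ⟨fun i j hij => ?_, fun i j hij => ?_⟩
  · rcases lt_or_gt_of_ne hij with hl | hl
    · exact (h.disj_CU (i := 2 * j) (by omega)).mono_right (h.sub j)
    · exact ((h.disj_CU (k := j) (i := 2 * i) (by omega)).mono_right (h.sub i)).symm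
  · refine Disjoint.mono_left (h.nbr i) ?_
    rw [Set.disjoint_union_left, Set.disjoint_union_left]
    exact ⟨⟨(h.disj_CD j).symm, (h.disj_CY j _).symm⟩, (h.disj_CY j _).symm⟩

theorem tau_if {τ : ℕ → St a}
    (hτ : ∀ k, BF M (τ k) (cl M (C k)) (cl M (C k)) α (idOn (nbr M (C k)))) (w : Set ℕ)
    [DecidablePred (· ∈ w)] (j : ℕ) :
    BF M (if j ∈ w then τ j else M) (cl M (C j)) (cl M (C j)) α (idOn (nbr M (C j))) := by
  split_ifs
  · exact hτ j
  · exact (BF.refl M (cl M (C j)) α).subset (idOn_mono subset_union_right)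

theorem mw_congr {τ τ' : ℕ → St a} {k : ℕ} (h : ∀ i < k, τ i = τ' i) {w : Set ℕ}
    (hw : ∀ i ∈ w, i < k) : mw M C τ w = mw M C τ' w := by
  unfold mw
  congr 1
  funext i
  by_cases hi : i ∈ w
  · rw [if_pos hi, if_pos hi, h i (hw i hi)]
  · rw [if_neg hi, if_neg hi]

theorem mw_agree {τ : ℕ → St a} {w w' X : Set ℕ}
    (h : ∀ j, ∀ x ∈ X, x ∈ C j → (j ∈ w ↔ j ∈ w')) :
    PIso (mw M C τ w) (mw M C τ w') (idOn X) := by
  refine glue_agree fun j x hx hxj => ?_
  have := h j x hx hxj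
  by_cases hj : j ∈ w
  · rw [if_pos hj, if_pos (this.1 hj)]
  · rw [if_neg hj, if_neg (fun hh => hj (this.2 hh))]

/-- The recursive choice of the new variations. -/
theorem Comb.exists_tau (h : Comb α M D U Y C) (hα : Ordinal.omega0 ≤ α) :
    ∃ τ : ℕ → St a, ∀ k, BF M (τ k) (cl M (C k)) (cl M (C k)) α (idOn (VP.nbr M (C k))) ∧
      ∀ w : Set ℕ, (∀ i ∈ w, i < k) → ∀ V, Flap (mw M C τ w) V →
        ¬ FIso (τ k) (C k) (VP.nbr M (C k)) (mw M C τ w) V := by
  refine exists_strong_rec M (fun k τ σ =>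
    BF M σ (cl M (C k)) (cl M (C k)) α (idOn (VP.nbr M (C k))) ∧
      ∀ w : Set ℕ, (∀ i ∈ w, i < k) → ∀ V, Flap (mw M C τ w) V →
        ¬ FIso σ (C k) (VP.nbr M (C k)) (mw M C τ w) V) ?_ ?_
  · intro k τ
    obtain ⟨σ, h1, h2⟩ := big_choice hα (h.flap k).2.2 (h.big k)
      (fun n => mw M C τ ((Denumerable.ofNat (Finset ℕ) n : Finset ℕ) : Set ℕ))
    refine ⟨σ, h1, fun w hw V hV => ?_⟩
    have hfin : w.Finite := (finite_Iio k).subset hw
    obtain ⟨m, hm⟩ : ∃ m, Denumerable.ofNat (Finset ℕ) m = hfin.toFinset :=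
      ⟨@Encodable.encode _ Denumerable.toEncodable hfin.toFinset, Denumerable.ofNat_encode _⟩
    have := h2 m V
    rw [hm, Finite.coe_toFinset] at this
    exact this hV
  · rintro k τ τ' σ hττ' ⟨h1, h2⟩
    refine ⟨h1, fun w hw V hV => ?_⟩
    rw [← mw_congr hττ' hw] at hV ⊢
    exact h2 w hw V hV

theorem comb_main {K : Set (St a)} (hK : Good α K) (hM : M ∈ K) (h : Comb α M D U Y C)
    {τ : ℕ → St a} (hτ : ∀ k, BF M (τ k) (cl M (C k)) (cl M (C k)) α (idOn (nbr M (C k))) ∧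
      ∀ w : Set ℕ, (∀ i ∈ w, i < k) → ∀ V, Flap (mw M C τ w) V →
        ¬ FIso (τ k) (C k) (nbr M (C k)) (mw M C τ w) V) {z z' : Set ℕ}
    (hq : IsoOn (mw M C τ z) (mw M C τ z') univ univ (idOn (D ∪ Y 0))) {n : ℕ} (hn : n ∈ z) :
    n ∈ z' := by
  classical
  by_contra hn'
  obtain ⟨e, he1, he⟩ := hq.exists_equiv
  have hα : Ordinal.omega0 ≤ α := by rw [← hK.absorb]; exact le_self_add
  have h0 : 0 < α := lt_of_lt_of_le Ordinal.omega0_pos hα
  have hs := hK.symm M hM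
  have hl := hK.loc M hM
  have hF := h.fam
  have hτ1 := fun k => (hτ k).1
  have hτ2 := fun k => (hτ k).2
  have hNK : ∀ w, mw M C τ w ∈ K := fun w => glue_mem hK hM hF (tau_if hτ1 w)
  have hsN : ∀ w, ∀ x y, Adj (mw M C τ w) x y → Adj (mw M C τ w) y x :=
    fun w => hK.symm _ (hNK w)
  have hnbr : ∀ w j, nbr (mw M C τ w) (C j) = nbr M (C j) :=
    fun w j => glue_nbr hF h0 (tau_if hτ1 w) j
  have hconn : ∀ w j, ConnSet (mw M C τ w) (C j) :=
    fun w j => glue_conn hF hK.omega_add_two_le (tau_if hτ1 w) j (h.flap j).2.1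
  have hflap : ∀ w j, Flap (mw M C τ w) (C j) := fun w j =>
    ⟨(h.flap j).1, hconn w j, by rw [hnbr]; exact (h.flap j).2.2⟩
  have hcl : ∀ w j, cl (mw M C τ w) (C j) = cl M (C j) := by
    intro w j; unfold cl; rw [hnbr]
  have hfiso : ∀ w j, j ∈ w → FIso (τ j) (C j) (nbr M (C j)) (mw M C τ w) (C j) := by
    intro w j hj
    have hp := glue_in hF (tau_if hτ1 w) j
    simp only [if_pos hj] at hp
    refine ⟨idOn (cl M (C j)), ?_, ?_, ?_, ?_, ?_⟩
    · unfold mw
      convert hp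
    · rintro ⟨u, v⟩ ⟨h1, h2⟩
      simp only at h1 h2
      subst h1
      exact ⟨h2, by rw [hcl]; exact h2⟩
    · intro x hx
      exact ⟨x, rfl, hx⟩
    · intro x hx
      rw [hcl] at hx
      exact ⟨x, rfl, hx⟩
    · rintro ⟨u, v⟩ ⟨h1, h2⟩
      simp only at h1 h2
      subst h1
      rw [hnbr]
  -- (i)
  set R : Set ℕ := univ \ ⋃ j, C j with hR
  have hbf : ∀ w, BF M (mw M C τ w) univ univ α (idOn R) := fun w =>
    glue_bf hs hl hF (fun j => subset_univ _) (tau_if hτ1 w)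
  have hDR : D ⊆ R := by
    intro x hx
    refine ⟨mem_univ _, ?_⟩
    rw [mem_iUnion]
    rintro ⟨j, hj⟩
    exact disjoint_left.1 (h.disj_CD j) hj hx
  have hYR : ∀ i, Y i ⊆ R := by
    intro i x hx
    refine ⟨mem_univ _, ?_⟩
    rw [mem_iUnion]
    rintro ⟨j, hj⟩
    exact disjoint_left.1 (h.disj_CY j i) hj hx
  have hmα : ∀ m : ℕ, (m : Ordinal.{0}) ≤ α := fun m => (Ordinal.natCast_lt_omega0 m).le.trans hα
  have hRD : ∀ u ∈ idOn R, (u.1 ∈ D ↔ u.2 ∈ D) := by
    rintro ⟨u, v⟩ ⟨h1, h2⟩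
    simp only at h1
    subst h1
    exact Iff.rfl
  have htr1 : ∀ w m x y, x ∈ R → y ∈ R → Path M D m x y → Path (mw M C τ w) D m x y := by
    intro w m x y hx hy hP
    exact path_transfer_univ ((hbf w).mono (hmα m)) hRD (fun s hs => ⟨s, rfl, hDR hs⟩)
      (fun s hs => ⟨s, rfl, hDR hs⟩) (idOn_self hx) (idOn_self hy) hP
  have htr2 : ∀ w m x y, x ∈ R → y ∈ R → Path (mw M C τ w) D m x y → Path M D m x y := by
    intro w m x y hx hy hP
    have hb := ((hbf w).mono (hmα m)).symm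
    rw [inv_idOn] at hb
    exact path_transfer_univ hb hRD (fun s hs => ⟨s, rfl, hDR hs⟩)
      (fun s hs => ⟨s, rfl, hDR hs⟩) (idOn_self hx) (idOn_self hy) hP
  -- (ii)
  have hUi : ∀ w i, nbr (mw M C τ w) (U i) ⊆ D ∪ Y i := by
    rintro w i v ⟨hv, x, hx, hxv⟩
    have hxv' := of_decide_eq_true hxv
    rcases hxv' with ⟨j, h1, h2, h3, -⟩ | ⟨-, h1⟩
    · by_cases hji : i ≤ 2 * j
      · have hCU := h.sub_CU hji
        have hvC : v ∉ C j := fun hh => hv (hCU hh)
        have hvn : v ∈ nbr M (C j) := h3.resolve_left hvC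
        obtain ⟨-, c, hc, hcv⟩ := hvn
        rw [← h.chain.nbr i]
        exact ⟨hv, c, hCU hc, hcv⟩
      · have hd := h.disj_CU (k := j) (i := i) (by omega)
        have hxC : x ∉ C j := fun hh => disjoint_left.1 hd hh hx
        obtain ⟨-, c, hc, hcx⟩ : x ∈ nbr M (C j) := h2.resolve_left hxC
        have : c ∈ nbr M (U i) := ⟨fun hh => disjoint_left.1 hd hc hh, x, hx, hs _ _ hcx⟩
        rw [h.chain.nbr] at this
        exfalso
        rcases this with hD | hY
        · exact disjoint_left.1 (h.disj_CD j) hc hD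
        · exact disjoint_left.1 (h.disj_CY j i) hc hY
    · rw [← h.chain.nbr i]
      exact ⟨hv, x, hx, h1⟩
  -- (iii)
  obtain ⟨δ, hδ1, hδ2⟩ := h.far n
  have heF : ∀ d ∈ D ∪ Y 0, e d = d := fun d hd => he1 (d, d) ⟨rfl, hd⟩
  have heD : e '' D = D := by
    ext x
    constructor
    · rintro ⟨d, hd, rfl⟩
      rwa [heF d (Or.inl hd)]
    · intro hx
      exact ⟨x, hx, heF x (Or.inl hx)⟩
  have hVnbr : nbr (mw M C τ z') (e '' C n) = e '' nbr M (C n) := by rw [nbr_equiv he, hnbr]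
  have hVflap : Flap (mw M C τ z') (e '' C n) := flap_equiv he (hflap z n)
  have hVF : FIso (τ n) (C n) (nbr M (C n)) (mw M C τ z') (e '' C n) :=
    fiso_equiv he (hfiso z n hn)
  have key : ∀ s ∈ Y (2 * n) ∪ Y (2 * n + 1), e s ∉ U (2 * n + 2) := by
    intro s hs' hU
    obtain ⟨y0, hy0, m, hm, hP⟩ := hδ1 s hs'
    have hsR : s ∈ R := hs'.elim (fun hh => hYR _ hh) (fun hh => hYR _ hh)
    have hP1 := path_equiv he (htr1 z m y0 s (hYR 0 hy0) hsR hP)
    rw [heD, heF y0 (Or.inr hy0)] at hP1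
    have hy0U : y0 ∉ U (2 * n + 2) := fun hh =>
      disjoint_left.1 (h.disj_UY 0) (h.chain.anti (Nat.zero_le _) hh) hy0
    obtain ⟨m', hm', y, hy, hP2⟩ := exists_first (hsN z') (hUi z' (2 * n + 2)) hP1 hy0U
      (Or.inl hU)
    exact hδ2 y hy y0 hy0 m' (hm'.trans hm) (htr2 z' m' y0 y (hYR 0 hy0) (hYR _ hy) hP2)
  have hVU : Disjoint (nbr (mw M C τ z') (e '' C n)) (U (2 * n + 2)) := by
    rw [hVnbr, Set.disjoint_left]
    rintro _ ⟨s, hs', rfl⟩ hU
    rcases h.nbr n hs' with (hD | hY) | hY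
    · rw [heF s (Or.inl hD)] at hU
      exact disjoint_left.1 (h.disj_UD _) hU hD
    · exact key s (Or.inl hY) hU
    · exact key s (Or.inr hY) hU
  have hVC : ∀ j, n < j → Disjoint (nbr (mw M C τ z') (e '' C n)) (C j) := fun j hj =>
    hVU.mono_right (h.sub_CU (by omega))
  by_cases hcase : ∃ j, n < j ∧ j ∈ z' ∧ C j ⊆ e '' C n
  · -- (iv)
    obtain ⟨j, hnj, hjz, hjV⟩ := hcase
    have hsub : e.symm '' C j ⊆ C n := by
      rintro _ ⟨x, hx, rfl⟩
      obtain ⟨y, hy, rfl⟩ := hjV hx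
      simpa using hy
    have hE : Flap (mw M C τ z) (e.symm '' C j) :=
      flap_equiv (piso_equiv_symm he) (hflap z' j)
    have hEF : FIso (τ j) (C j) (nbr M (C j)) (mw M C τ z) (e.symm '' C j) :=
      fiso_equiv (piso_equiv_symm he) (hfiso z' j hjz)
    set w : Set ℕ := {i | i < j ∧ i ∈ z} with hw
    have hag : PIso (mw M C τ z) (mw M C τ w) (idOn (cl M (C n))) := by
      refine mw_agree fun i x hx hxi => ?_
      have hin : i = n := by
        by_contra hne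
        rcases hx with hx | hx
        · exact disjoint_left.1 (hF.disj _ _ hne) hxi hx
        · exact disjoint_left.1 (hF.nonadj _ _ (Ne.symm hne)) hx hxi
      subst hin
      exact ⟨fun hh => ⟨hnj, hh⟩, fun hh => hh.2⟩
    have hcls : ∀ w' : Set ℕ, cl (mw M C τ w') (e.symm '' C j) ⊆ cl M (C n) := by
      intro w' x hx
      rw [← hcl w' n]
      rcases hx with hx | ⟨hx, c, hc, hcx⟩
      · exact Or.inl (hsub hx)
      · by_cases hxn : x ∈ C n
        · exact Or.inl hxn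
        · exact Or.inr ⟨hxn, c, hsub hc, hcx⟩
    exact hτ2 j w (fun i hi => hi.1) _ (flap_agree hag (hcls z) (hcls w) hE)
      (fiso_agree hag (hcls z) (hcls w) hEF)
  · -- (v)
    push Not at hcase
    have hdisj : ∀ j, n < j → j ∈ z' → Disjoint (C j) (e '' C n) := by
      intro j hnj hjz
      by_contra hnd
      exact hcase j hnj hjz ((hconn z' j).subset_of_meets (hVC j hnj).symm hnd)
    set w : Set ℕ := {i | i < n ∧ i ∈ z'} with hw
    set X : Set ℕ := {x | ∀ j, n < j → j ∈ z' → x ∉ C j} with hX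
    have hag : PIso (mw M C τ z') (mw M C τ w) (idOn X) := by
      refine mw_agree fun i x hx hxi => ?_
      constructor
      · intro hi
        refine ⟨?_, hi⟩
        rcases lt_trichotomy i n with h1 | h1 | h1
        · exact h1
        · subst h1; exact absurd hi hn'
        · exact absurd hxi (hx i h1 hi)
      · exact fun hh => hh.2
    have hc1 : cl (mw M C τ z') (e '' C n) ⊆ X := by
      rintro x (hx | hx) j hnj hjz hxj
      · exact disjoint_left.1 (hdisj j hnj hjz) hxj hx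
      · exact disjoint_left.1 (hVC j hnj) hx hxj
    have hc2 : cl (mw M C τ w) (e '' C n) ⊆ X := by
      rintro x (hx | ⟨hx, v, hv, hvx⟩) j hnj hjz hxj
      · exact disjoint_left.1 (hdisj j hnj hjz) hxj hx
      · have hvj : v ∉ C j := fun hh => disjoint_left.1 (hdisj j hnj hjz) hh hv
        have hvn : v ∈ nbr (mw M C τ w) (C j) := ⟨hvj, x, hxj, hsN w _ _ hvx⟩
        rw [hnbr, ← hnbr z' j] at hvn
        obtain ⟨-, c, hc, hcv⟩ := hvn
        have hcV : c ∉ e '' C n := fun hh => disjoint_left.1 (hdisj j hnj hjz) hc hh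
        exact disjoint_left.1 (hVC j hnj) ⟨hcV, v, hv, hsN z' _ _ hcv⟩ hc
    exact hτ2 n w (fun i hi => hi.1) _ (flap_agree hag hc1 hc2 hVflap)
      (fiso_agree hag hc1 hc2 hVF)

end comb

theorem no_comb {α : Ordinal.{0}} {K : Set (St a)} (hK : Good α K) {M : St a} (hM : M ∈ K)
    {D : Set ℕ} {U Y C : ℕ → Set ℕ} (h : Comb α M D U Y C) : False := by
  have hα : Ordinal.omega0 ≤ α := by rw [← hK.absorb]; exact le_self_add
  obtain ⟨τ, hτ⟩ := h.exists_tau hα
  have hmem : ∀ w, mw M C τ w ∈ K := by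
    classical
    exact fun w => glue_mem hK hM h.fam (tau_if (fun k => (hτ k).1) w)
  refine few_base hK.meas hK.few (h.chain.finD.union (h.chain.finY 0))
    (fun c => mw M C τ {i | c i = true})
    (glue_cont h.fam _ fun j => by
      simp only [Set.mem_ofPred_eq]
      convert ite_cont (M := M) (τ := τ j) j)
    (fun c => hmem _) ?_
  intro c d hcd
  have hdc := hcd.symm
  rw [inv_idOn] at hdc
  funext i
  have h1 : c i = true → d i = true := fun hi => comb_main hK hM h hτ hcd hi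
  have h2 : d i = true → c i = true := fun hi => comb_main hK hM h hτ hdc hi
  cases hc : c i <;> cases hd : d i <;> simp_all

/-- Deep inside an end every big flap belongs to the end. -/
theorem no_antichain {α : Ordinal.{0}} {K : Set (St a)} (hK : Good α K) {M : St a} (hM : M ∈ K)
    {V : ℕ → Set ℕ} (hV : End M V) :
    ∃ n, ∀ C, Flap M C → Big α M C → C ⊆ V n → ∀ m, ¬ Disjoint C (V m) := by
  by_contra hc
  push Not at hc
  obtain ⟨D, U, Y, C, h⟩ := exists_comb hK hM hV (fun n => by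
    obtain ⟨C, h1, h2, h3, m, hm⟩ := hc n
    exact ⟨C, h1, h2, h3, m, hm⟩)
  exact no_comb hK hM h

end Pool.Agent.H899R2.VP
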