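import Pool.Agent.H899R2.VP.Tight
import Pool.Agent.H899R2.VP.Halin

set_option autoImplicit false

/-! Finitely many candidates for the image of a tight separator (task CAND). -/

namespace Pool.Agent.H899R2.VP

open Set

variable {a : ℕ → ℕ}

namespace Cand

/-- Lists of given length with entries in a finite set. -/
theorem lists_finite {S : Set ℕ} (hS : S.Finite) (L : ℕ) :
    {y : List ℕ | y.length = L ∧ ∀ x ∈ y, x ∈ S}.Finite := by
  induction L with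
  | zero =>
    refine (Set.finite_singleton []).subset ?_
    rintro y ⟨h, _⟩
    exact List.length_eq_zero_iff.1 h
  | succ L ih =>
    refine ((hS.prod ih).image (fun u : ℕ × List ℕ => u.1 :: u.2)).subset ?_
    rintro y ⟨h, h'⟩
    cases y with
    | nil => simp at h
    | cons x y =>
      exact ⟨(x, y), ⟨h' x (by simp), by simpa using h, fun z hz => h' z (by simp [hz])⟩, rfl⟩

/-- Corresponding sets under an extension. -/
theorem corr {M N : St a} {p : Set (ℕ × ℕ)} {S S' : Set ℕ} {x x' : ℕ}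
    (hp : PIso M N (insert (x, x') p)) (h1 : ∀ u ∈ p, (u.1 ∈ S ↔ u.2 ∈ S'))
    (h2 : ∀ s ∈ S, ∃ s', (s, s') ∈ p) (h3 : ∀ s' ∈ S', ∃ s, (s, s') ∈ p) :
    ∀ u ∈ insert (x, x') p, (u.1 ∈ S ↔ u.2 ∈ S') := by
  rintro u (rfl | hu)
  · constructor
    · intro hx
      obtain ⟨s', hs'⟩ := h2 _ hx
      have h4 : x' = s' := hp.snd_eq (Or.inl rfl) (Or.inr hs') rfl
      show x' ∈ S'
      rw [h4]
      exact (h1 _ hs').1 hx
    · intro hx
      obtain ⟨s, hs⟩ := h3 _ hx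
      have h4 : x = s := hp.fst_eq (Or.inl rfl) (Or.inr hs) rfl
      show x ∈ S
      rw [h4]
      exact (h1 _ hs).2 hx
  · exact h1 u hu

/-- A path avoiding the neighbourhood stays inside. -/
theorem path_stay {M : St a} {E B : Set ℕ} (hE : nbr M E ⊆ B) {n x y : ℕ}
    (h : Path M B n x y) (hx : x ∈ E) : y ∈ E := by
  induction h with
  | nil => exact hx
  | cons h h1 h2 ih =>
    apply ih
    by_contra hc
    exact h2.left_notMem (hE ⟨hc, _, hx, h1⟩)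

/-- A path from a component of the complement of `F` to a point of `F`, avoiding the other points
of `F`, shows that the point is in the neighbourhood. -/
theorem reach_nbr {M : St a} {F B : Set ℕ} {v : ℕ} {l x y : ℕ} (h : Path M B l x y)
    (hB : F \ {y} ⊆ B) (hy : y ∈ F) (hx : x ∈ flapAt M F v) : y ∈ nbr M (flapAt M F v) := by
  induction h with
  | nil =>
    exact absurd hy (fun h => (flapAt_disjoint (M := M) (B := F) v).le_bot ⟨hx, h⟩)
  | @cons n x x1 y h h1 h2 ih =>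
    by_cases hxy : x1 = y
    · subst hxy
      exact ⟨fun h => (flapAt_disjoint (M := M) (B := F) v).le_bot ⟨h, hy⟩, x, hx, h1⟩
    · refine ih hB hy (flapAt_closed hx h1 fun hF => h2.left_notMem (hB ⟨hF, hxy⟩))

/-- The family of HALIN. -/
def HSet (M : St a) (A : Set ℕ) (w m : ℕ) (P : Set ℕ) : Set (Set ℕ) :=
    {Y : Set ℕ | Y.Finite ∧ Y.ncard = m ∧ Disjoint Y P ∧ w ∉ P ∪ Y ∧
      (∀ x ∈ A, ¬ Conn M (P ∪ Y) x w) ∧
      (∀ y ∈ Y, ∃ x, Adj M x y ∧ ∃ z ∈ A, Conn M (P ∪ Y) z x) ∧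
      (∀ y ∈ Y, ∃ x, Adj M x y ∧ Conn M (P ∪ Y) w x)}

theorem _root_.Pool.Agent.H899R2.VP.End.flap {M : St a} {V : ℕ → Set ℕ} (h : End M V) (n : ℕ) :
    Flap M (V n) := ⟨h.ne n, h.conn n, (finite_Iio n).subset (h.nbr n)⟩

theorem _root_.Pool.Agent.H899R2.VP.Chain.flap {M : St a} {D : Set ℕ} {U Y : ℕ → Set ℕ}
    (h : Chain M D U Y) (n : ℕ) : Flap M (U n) :=
  ⟨h.ne n, h.conn n, by rw [h.nbr n]; exact h.finD.union (h.finY n)⟩

theorem core {α : Ordinal.{0}} {K : Set (St a)} (hK : Good α K) {M : St a} (hM : M ∈ K)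
    {n : ℕ} {V : ℕ → Set ℕ} (hV : Pure α M V n) {W Z : ℕ → Set ℕ}
    (hW : TChain M V n W Z) {k : ℕ} (hk : 1 ≤ k) {z : List ℕ} (hz : {x | x ∈ z} = Z k)
    {μ : Ordinal.{0}} (hμ : Ordinal.omega0 + μ = μ) (hα : α ≤ μ) {d : ℕ}
    (hd : ∀ x ∈ Z k, ∃ y0 ∈ Z 0, ∃ l ≤ d, Path M (Iio n \ {y0}) l y0 x)
    {y : List ℕ} (hy : y.length = z.length)
    (hb : BF M M univ univ (μ + 1) (idOn (Iio n) ∪ zipSet z y)) :
    ∃ C, (Flap M C ∧ Big α M C ∧ nbr M C ⊆ Iio n ∧ Disjoint C (Iio n)) ∧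
      ∀ V' W' Z', Pure α M V' n → V' n = C → TChain M V' n W' Z' → ∀ w ∈ W' (d + 1),
        {x | x ∈ y} ∈ HSet M (Z 0) w ({x | x ∈ y}.ncard) (Iio n \ Z 0) := by
  have hs := hK.symm M hM
  set F : Set ℕ := Iio n with hF
  set D : Set ℕ := dom M V with hD
  set Y : Set ℕ := {x | x ∈ y} with hY
  set p : Set (ℕ × ℕ) := idOn F ∪ zipSet z y with hp
  have hYfin : Y.Finite := List.finite_toSet y
  have hn0 : nbr M (W 0) = D ∪ Z 0 := hW.chain.nbr 0
  have hDZF : D ∪ Z 0 ⊆ F := by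
    rw [← hn0, hW.start]; exact hV.isEnd.nbr n
  have hDF : D ⊆ F := subset_union_left.trans hDZF
  have hZ0F : Z 0 ⊆ F := subset_union_right.trans hDZF
  have hW0F : Disjoint (W 0) F := by rw [hW.start]; exact hV.isEnd.disj n
  obtain ⟨k', rfl⟩ : ∃ k', k = k' + 1 := ⟨k - 1, by omega⟩
  have hZW : Z (k' + 1) ⊆ W 0 :=
    (subset_union_right.trans (hW.chain.step k')).trans (hW.chain.anti (Nat.zero_le k'))
  have hWkW : W (k' + 1) ⊆ W 0 := hW.chain.anti (Nat.zero_le _)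
  have hZF : Disjoint (Z (k' + 1)) F := hW0F.mono_left hZW
  have hWkF : Disjoint (W (k' + 1)) F := hW0F.mono_left hWkW
  have hnk : nbr M (W (k' + 1)) = D ∪ Z (k' + 1) := hW.chain.nbr (k' + 1)
  -- the pairs
  have hpid : ∀ x ∈ F, (x, x) ∈ p := fun x hx => Or.inl ⟨rfl, hx⟩
  have hpl : ∀ x ∈ Z (k' + 1), ∃ x', x' ∈ Y ∧ (x, x') ∈ p := by
    intro x hx
    rw [← hz] at hx
    obtain ⟨x', hx'⟩ := exists_zipSet_left hy.symm hx
    exact ⟨x', mem_zipSet_right hx', Or.inr hx'⟩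
  have hpr : ∀ x' ∈ Y, ∃ x, x ∈ Z (k' + 1) ∧ (x, x') ∈ p := by
    intro x' hx'
    obtain ⟨x, hx⟩ := exists_zipSet_right hy.symm hx'
    refine ⟨x, ?_, Or.inr hx⟩
    rw [← hz]; exact mem_zipSet_left hx
  have hpc : ∀ u ∈ p, (u.1 = u.2 ∧ u.1 ∈ F) ∨ (u.1 ∈ Z (k' + 1) ∧ u.2 ∈ Y) := by
    rintro ⟨u, v⟩ (hu | hu)
    · exact Or.inl hu
    · refine Or.inr ⟨?_, mem_zipSet_right hu⟩
      rw [← hz]; exact mem_zipSet_left hu
  have hYF : Disjoint Y F := by
    rw [Set.disjoint_left]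
    intro x' hx' hxF
    obtain ⟨x, hx, hxp⟩ := hpr x' hx'
    have : x = x' := hb.piso.fst_eq hxp (hpid x' hxF) rfl
    exact Set.disjoint_left.1 hZF hx (this ▸ hxF)
  -- ranks
  have hωμ : Ordinal.omega0 ≤ μ := by rw [← hμ]; exact le_self_add
  have hnat : ∀ l : ℕ, (l : Ordinal.{0}) ≤ μ := fun l => (Ordinal.natCast_lt_omega0 l).le.trans hωμ
  have hμ1 : μ < μ + 1 := Order.lt_add_one_iff.2 le_rfl
  -- correspondences
  have hcor1 : ∀ y0 : ℕ, ∀ u ∈ p, (u.1 ∈ F \ {y0} ↔ u.2 ∈ F \ {y0}) := by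
    intro y0 u hu
    rcases hpc u hu with ⟨h1, h2⟩ | ⟨h1, h2⟩
    · rw [h1]
    · have e1 : u.1 ∉ F := Set.disjoint_left.1 hZF h1
      have e2 : u.2 ∉ F := Set.disjoint_left.1 hYF h2
      exact ⟨fun h => absurd h.1 e1, fun h => absurd h.1 e2⟩
  have hcor2 : ∀ G ⊆ F, ∀ u ∈ p, (u.1 ∈ G ∪ Z (k' + 1) ↔ u.2 ∈ G ∪ Y) := by
    intro G hG u hu
    rcases hpc u hu with ⟨h1, h2⟩ | ⟨h1, h2⟩
    · have e1 : u.1 ∉ Z (k' + 1) := fun h => Set.disjoint_left.1 hZF h h2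
      have e2 : u.2 ∉ Y := fun h => Set.disjoint_left.1 hYF h (h1 ▸ h2)
      constructor
      · rintro (h | h)
        · exact Or.inl (h1 ▸ h)
        · exact absurd h e1
      · rintro (h | h)
        · exact Or.inl (h1 ▸ h)
        · exact absurd h e2
    · exact ⟨fun _ => Or.inr h2, fun _ => Or.inr h1⟩
  have hcl : ∀ G ⊆ F, ∀ s ∈ G ∪ Z (k' + 1), ∃ s', (s, s') ∈ p := by
    rintro G hG s (h | h)
    · exact ⟨s, hpid s (hG h)⟩
    · obtain ⟨x', _, hx'⟩ := hpl s h; exact ⟨x', hx'⟩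
  have hcr : ∀ G ⊆ F, ∀ s' ∈ G ∪ Y, ∃ s, (s, s') ∈ p := by
    rintro G hG s (h | h)
    · exact ⟨s, hpid s (hG h)⟩
    · obtain ⟨x, _, hx⟩ := hpr s h; exact ⟨x, hx⟩
  -- (a)
  have ha : ∀ x' ∈ Y, ∃ y0 ∈ Z 0, ∃ l ≤ d, Path M (F \ {y0}) l y0 x' := by
    intro x' hx'
    obtain ⟨x, hx, hxp⟩ := hpr x' hx'
    obtain ⟨y0, hy0, l, hl, hP⟩ := hd x hx
    refine ⟨y0, hy0, l, hl, ?_⟩
    refine path_transfer_univ (hb.mono ((hnat l).trans hμ1.le)) (hcor1 y0)
      (fun s hs => ⟨s, hpid s hs.1⟩) (fun s hs => ⟨s, hpid s hs.1⟩) (hpid y0 (hZ0F hy0)) hxp hP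
  -- (b)
  obtain ⟨v, hv⟩ := hW.chain.ne (k' + 1)
  have hWkZ : Disjoint (W (k' + 1)) (Z (k' + 1)) := by
    rw [Set.disjoint_left]
    intro x hx hx'
    have : x ∈ nbr M (W (k' + 1)) := by rw [hnk]; exact Or.inr hx'
    exact this.1 hx
  have hWkflap : W (k' + 1) = flapAt M (F ∪ Z (k' + 1)) v := by
    refine eq_flapAt (hW.chain.conn _) ?_ ?_ hv
    · rw [hnk]; exact union_subset_union_left _ hDF
    · rw [Set.disjoint_union_right]; exact ⟨hWkF, hWkZ⟩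
  have hvS : v ∉ F ∪ Z (k' + 1) := by
    rintro (h | h)
    · exact Set.disjoint_left.1 hWkF hv h
    · exact Set.disjoint_left.1 hWkZ hv h
  obtain ⟨v', -, hbv⟩ := hb.forth hμ1 (mem_univ v)
  have hcorv := corr hbv.piso (hcor2 F Subset.rfl) (hcl F Subset.rfl) (hcr F Subset.rfl)
  have hv'S : v' ∉ F ∪ Y := fun h => hvS ((hcorv (v, v') (Or.inl rfl)).2 h)
  have hbv' : BF M M univ univ (Ordinal.omega0 + μ) (insert (v, v') p) := by rw [hμ]; exact hbv
  obtain ⟨hE1, -, hE3⟩ := flap_bf hbv' hcorv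
    (fun s hs => (hcl F Subset.rfl s hs).imp fun _ h => Or.inr h)
    (fun s hs => (hcr F Subset.rfl s hs).imp fun _ h => Or.inr h) (Or.inl rfl) hvS
  rw [← hWkflap] at hE1 hE3
  set E : Set ℕ := flapAt M (F ∪ Y) v' with hEdef
  have hSfin : (F ∪ Y).Finite := (finite_Iio n).union hYfin
  have hEflap : Flap M E := flap_flapAt hs hSfin hv'S
  have hEdisj : Disjoint E (F ∪ Y) := flapAt_disjoint v'
  have hEsub : nbr M E ⊆ F ∪ Y := nbr_flapAt v'
  have hnE : nbr M E = D ∪ Y := by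
    ext s
    constructor
    · intro hsE
      rcases hEsub hsE with h | h
      · have h1 := (hE3 (s, s) (Or.inr (hpid s h))).2 hsE
        rw [hnk] at h1
        rcases h1 with h1 | h1
        · exact Or.inl h1
        · exact absurd h (Set.disjoint_left.1 hZF h1)
      · exact Or.inr h
    · rintro (h | h)
      · refine (hE3 (s, s) (Or.inr (hpid s (hDF h)))).1 ?_
        rw [hnk]; exact Or.inl h
      · obtain ⟨x, hx, hxp⟩ := hpr s h
        refine (hE3 (x, s) (Or.inr hxp)).1 ?_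
        rw [hnk]; exact Or.inr hx
  have hWkbig : Big α M (W (k' + 1)) := by
    obtain ⟨m, hm⟩ := hW.tail (k' + 1)
    exact big_mono hK hM (hV.isEnd.flap m) (hW.chain.flap _) hm (hV.big m)
  have hEbig : Big α M E := by
    intro hsm
    refine hWkbig (small_of_bf ((hE1.mono hα).symm) ?_ ?_ ?_ hsm)
    · rintro u hu
      exact (hE3 _ hu.1).symm
    · intro s hsE
      obtain ⟨x, hx⟩ := hcr F Subset.rfl s (hEsub hsE)
      refine ⟨x, Or.inr hx, Or.inr ?_, Or.inr hsE⟩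
      exact (hE3 (x, s) (Or.inr hx)).2 hsE
    · intro s hsW
      have : s ∈ F ∪ Z (k' + 1) := by
        rw [hnk] at hsW
        exact union_subset_union_left _ hDF hsW
      obtain ⟨x, hx⟩ := hcl F Subset.rfl s this
      refine ⟨x, Or.inr hx, Or.inr hsW, Or.inr ?_⟩
      exact (hE3 (s, x) (Or.inr hx)).1 hsW
  -- (c)
  have hv'F : v' ∉ F := fun h => hv'S (Or.inl h)
  have hEC : E ⊆ flapAt M F v' := fun x hx => Conn.mono hx subset_union_left
  have hCflap : Flap M (flapAt M F v') := flap_flapAt hs (finite_Iio n) hv'F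
  have hCbig : Big α M (flapAt M F v') := big_mono hK hM hEflap hCflap hEC hEbig
  have hCdisj : Disjoint (flapAt M F v') F := flapAt_disjoint v'
  refine ⟨flapAt M F v', ⟨hCflap, hCbig, nbr_flapAt v', hCdisj⟩, ?_⟩
  intro V' W' Z' hV' hVC hW' w hw
  have hEV : E ⊆ V' n := by rw [hVC]; exact hEC
  have hD' : dom M V' ⊆ D := by
    intro x hx
    obtain ⟨m, hm⟩ := hV'.isEnd.exists_notMem hSfin
    have hxn := hV'.dom x hx
    have hsub : V' (max m n) ⊆ E := by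
      refine ConnSet.subset_of_meets (hV'.isEnd.conn _)
        ((hm _ (le_max_left _ _)).mono_right hEsub) ?_
      intro h
      exact hV'.meet E hEflap hEbig hEV (max m n) h.symm
    have hxN := hx (max m n) (lt_of_lt_of_le hxn (le_max_right _ _))
    obtain ⟨hx1, c, hc, hcx⟩ := hxN
    have hxF : x ∈ F := hxn
    have : x ∈ nbr M E := ⟨fun h => Set.disjoint_left.1 hEdisj h (Or.inl hxF), c, hsub hc, hcx⟩
    rw [hnE] at this
    rcases this with h | h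
    · exact h
    · exact absurd hxF (Set.disjoint_left.1 hYF h)
  have hW'0 : W' 0 = flapAt M F v' := by rw [hW'.start, hVC]
  have hnC : nbr M (flapAt M F v') = dom M V' ∪ Z' 0 := by rw [← hW'0]; exact hW'.chain.nbr 0
  -- (d)
  have hYC : Y ⊆ flapAt M F v' := by
    intro x hx
    have : x ∈ nbr M E := by rw [hnE]; exact Or.inr hx
    obtain ⟨-, c, hc, hcx⟩ := this
    exact flapAt_closed (hEC hc) hcx (Set.disjoint_left.1 hYF hx)
  have hYW : ∀ x ∈ Y, x ∉ W' (d + 1) := by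
    intro x hx hxW
    obtain ⟨y0, hy0, l, hl, hP⟩ := ha x hx
    have hy0C : y0 ∈ nbr M (flapAt M F v') :=
      reach_nbr (hP.symm hs) Subset.rfl (hZ0F hy0) (hYC hx)
    have hy0D : y0 ∉ dom M V' := fun h =>
      Set.disjoint_left.1 (hW.chain.disj 0) (hD' h) hy0
    have hy0Z : y0 ∈ Z' 0 := by
      rw [hnC] at hy0C
      exact hy0C.resolve_left hy0D
    have hP' : Path M (dom M V') l y0 x := by
      refine hP.mono ?_
      intro t ht
      refine ⟨hDF (hD' ht), ?_⟩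
      rintro rfl
      exact hy0D ht
    have := hW'.chain.le_of_path hs hy0Z (Or.inl hxW) hP'
    omega
  have hW'F : Disjoint (W' (d + 1)) F := by
    refine Disjoint.mono_left (hW'.chain.anti (Nat.zero_le _)) ?_
    rw [hW'0]; exact hCdisj
  have hWE : W' (d + 1) ⊆ E := by
    refine ConnSet.subset_of_meets (hW'.chain.conn _) (Disjoint.mono_right hEsub ?_) ?_
    · rw [Set.disjoint_union_right]
      exact ⟨hW'F, Set.disjoint_right.2 hYW⟩
    · intro h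
      obtain ⟨j, hj⟩ := hW'.tail (d + 1)
      exact hV'.meet E hEflap hEbig hEV j (h.mono_left hj).symm
  have hwE : w ∈ E := hWE hw
  have hDA : Disjoint D (Z 0) := hW.chain.disj 0
  have hnEP : nbr M E ⊆ (F \ Z 0) ∪ Y := by
    rw [hnE]
    refine union_subset_union_left _ fun x hx => ⟨hDF hx, Set.disjoint_left.1 hDA hx⟩
  have hEP : (F \ Z 0) ∪ Y ⊆ Eᶜ := by
    intro x hx hxE
    exact Set.disjoint_left.1 hEdisj hxE (union_subset_union_left _ sdiff_subset hx)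
  refine ⟨hYfin, rfl, hYF.mono_right sdiff_subset, fun h => hEP h hwE, ?_, ?_, ?_⟩
  · intro x hx hc
    obtain ⟨l, hl⟩ := hc.symm hs
    have : x ∈ E := path_stay hnEP hl hwE
    exact Set.disjoint_left.1 hEdisj this (Or.inl (hZ0F hx))
  · intro x' hx'
    obtain ⟨x0, hx0, hx0p⟩ := hpr x' hx'
    obtain ⟨x, hxa, y0, hy0, l, hP⟩ := hW.tight (k' + 1) hk x0 hx0
    obtain ⟨t, -, ht⟩ := hb.forth hμ1 (mem_univ x)
    have hG : F \ {y0} ⊆ F := sdiff_subset
    have hct := corr ht.piso (hcor2 _ hG) (hcl _ hG) (hcr _ hG)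
    refine ⟨t, (ht.piso.adj (Or.inl rfl) (Or.inr hx0p)).1 hxa, y0, hy0, l, ?_⟩
    have hP2 : Path M ((F \ {y0}) ∪ Z (k' + 1)) l y0 x := by
      refine hP.mono (union_subset_union_left _ ?_)
      rintro r ⟨hr1, hr2⟩ (hr | hr)
      · exact Set.disjoint_left.1 hW0F hr hr1
      · exact hr2 hr
    have hP3 := path_transfer_univ (ht.mono (hnat l)) hct
      (fun s hs => (hcl _ hG s hs).imp fun _ h => Or.inr h)
      (fun s hs => (hcr _ hG s hs).imp fun _ h => Or.inr h)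
      (Or.inr (hpid y0 (hZ0F hy0))) (Or.inl rfl) hP2
    refine hP3.mono (union_subset_union_left _ ?_)
    rintro r ⟨hr1, hr2⟩
    refine ⟨hr1, ?_⟩
    rintro rfl
    exact hr2 hy0
  · intro x' hx'
    have : x' ∈ nbr M E := by rw [hnE]; exact Or.inr hx'
    obtain ⟨-, c, hc, hcx⟩ := this
    exact ⟨c, hcx, (hEflap.2.1 w hwE c hc).mono hEP⟩

end Cand

theorem cand_finite {α : Ordinal.{0}} {K : Set (St a)} (hK : Good α K) {M : St a} (hM : M ∈ K)
    {n : ℕ} (hn : Level α M n) {V : ℕ → Set ℕ} (hV : Pure α M V n) {W Z : ℕ → Set ℕ}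
    (hW : TChain M V n W Z) {k : ℕ} (hk : 1 ≤ k) {z : List ℕ} (hz : {x | x ∈ z} = Z k)
    {μ : Ordinal.{0}} (hμ : Ordinal.omega0 + μ = μ) (hα : α ≤ μ) :
    {y : List ℕ | y.length = z.length ∧
      BF M M univ univ (μ + 1) (idOn (Iio n) ∪ zipSet z y)}.Finite := by
  have hs := hK.symm M hM
  have hW0F : Disjoint (W 0) (Iio n) := by rw [hW.start]; exact hV.isEnd.disj n
  have hZW : Z k ⊆ W 0 := by
    obtain ⟨k', rfl⟩ : ∃ k', k = k' + 1 := ⟨k - 1, by omega⟩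
    exact (subset_union_right.trans (hW.chain.step k')).trans (hW.chain.anti (Nat.zero_le k'))
  have hpath : ∀ x ∈ Z k, ∃ l, ∃ y0 ∈ Z 0, Path M (Iio n \ {y0}) l y0 x := by
    intro z0 hz0
    obtain ⟨x, hxa, y0, hy0, l, hP⟩ := hW.tight k hk z0 hz0
    refine ⟨l + 1, y0, hy0, ?_⟩
    refine Path.trans (y := x) (hP.mono ?_) ?_
    · rintro r ⟨hr1, hr2⟩
      refine Or.inl ?_
      rintro (hr | hr)
      · exact Set.disjoint_left.1 hW0F hr hr1
      · exact hr2 hr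
    · refine Path.cons ?_ hxa (Path.nil ?_)
      · rintro ⟨hr1, hr2⟩
        refine hP.right_notMem (Or.inl ?_)
        rintro (hr | hr)
        · exact Set.disjoint_left.1 hW0F hr hr1
        · exact hr2 hr
      · exact fun h => Set.disjoint_left.1 hW0F (hZW hz0) h.1
  choose! l hl using hpath
  obtain ⟨d, hd⟩ : ∃ d, ∀ x ∈ Z k, l x ≤ d := by
    obtain ⟨d, hd⟩ := ((hW.chain.finY k).image l).bddAbove
    exact ⟨d, fun x hx => hd ⟨x, hx, rfl⟩⟩
  have hd' : ∀ x ∈ Z k, ∃ y0 ∈ Z 0, ∃ l ≤ d, Path M (Iio n \ {y0}) l y0 x := by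
    intro x hx
    obtain ⟨y0, hy0, hP⟩ := hl x hx
    exact ⟨y0, hy0, l x, hd x hx, hP⟩
  set B : Set (Set ℕ) :=
    {C : Set ℕ | Flap M C ∧ Big α M C ∧ nbr M C ⊆ Iio n ∧ Disjoint C (Iio n)} with hB
  have hBf : B.Finite := finite_big hK hM (finite_Iio n)
  have hch : ∀ C ∈ B, ∃ w, ∃ V' W' Z', Pure α M V' n ∧ V' n = C ∧ TChain M V' n W' Z' ∧
      w ∈ W' (d + 1) := by
    rintro C ⟨h1, h2, h3, h4⟩
    obtain ⟨V', hV', he⟩ := hn C h1 h2 h3 h4
    obtain ⟨W', Z', ht⟩ := exists_tchain hK hM hV'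
    obtain ⟨w, hw⟩ := ht.chain.ne (d + 1)
    exact ⟨w, V', W', Z', hV', he, ht, hw⟩
  choose! w hw using hch
  have hfin : (⋃ C ∈ B, ⋃ m ∈ Iic z.length, ⋃ Y ∈ Cand.HSet M (Z 0) (w C) m (Iio n \ Z 0),
      {y : List ℕ | y.length = z.length ∧ ∀ x ∈ y, x ∈ Y}).Finite :=
    hBf.biUnion fun C _ => (finite_Iic _).biUnion fun m _ =>
      (halin hs (Z 0) (w C) m (Iio n \ Z 0)).biUnion fun Y hY => Cand.lists_finite hY.1 _
  refine hfin.subset ?_
  rintro y ⟨hy, hb⟩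
  obtain ⟨C, hC, h⟩ := Cand.core hK hM hV hW hk hz hμ hα hd' hy hb
  obtain ⟨V', W', Z', h1, h2, h3, h4⟩ := hw C hC
  have h5 := h V' W' Z' h1 h2 h3 _ h4
  have hcard : ({x | x ∈ y} : Set ℕ).ncard ≤ z.length := by
    have : ({x | x ∈ y} : Set ℕ) = (y.toFinset : Set ℕ) := by ext x; simp
    rw [this, Set.ncard_coe_finset, ← hy]
    exact List.toFinset_card_le y
  simp only [mem_iUnion]
  exact ⟨C, hC, _, hcard, {x | x ∈ y}, h5, hy, fun x hx => hx⟩

end Pool.Agent.H899R2.VP
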