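import Pool.Agent.H899R2.VP.Path

set_option autoImplicit false

/-! Ends and chains of separators (task CHAIN). -/

namespace Pool.Agent.H899R2.VP

open Set

variable {a : ℕ → ℕ}

/-- A decreasing sequence of components of the complements of the sets `{0,…,n-1}`. -/
structure End (M : St a) (V : ℕ → Set ℕ) : Prop where
  ne : ∀ n, (V n).Nonempty
  conn : ∀ n, ConnSet M (V n)
  nbr : ∀ n, nbr M (V n) ⊆ Iio n
  disj : ∀ n, Disjoint (V n) (Iio n)
  anti : ∀ n, V (n + 1) ⊆ V n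

/-- The vertices dominating an end. -/
def dom (M : St a) (V : ℕ → Set ℕ) : Set ℕ := {d | ∀ n, d < n → d ∈ nbr M (V n)}

/-- Chains of separators `D ∪ Y i`. -/
structure Chain (M : St a) (D : Set ℕ) (U Y : ℕ → Set ℕ) : Prop where
  finD : D.Finite
  finY : ∀ i, (Y i).Finite
  neY : ∀ i, (Y i).Nonempty
  ne : ∀ i, (U i).Nonempty
  conn : ∀ i, ConnSet M (U i)
  nbr : ∀ i, nbr M (U i) = D ∪ Y i
  disj : ∀ i, Disjoint D (Y i)
  step : ∀ i, U (i + 1) ∪ Y (i + 1) ⊆ U i
  inter : ∀ x, ∃ i, x ∉ U i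

theorem End.anti' {M : St a} {V : ℕ → Set ℕ} (h : End M V) {m n : ℕ} (hmn : m ≤ n) :
    V n ⊆ V m := antitone_nat_of_succ_le h.anti hmn

/-- Two finite conditions: a vertex lying outside all large `V n`. -/
theorem End.exists_notMem {M : St a} {V : ℕ → Set ℕ} (h : End M V) {F : Set ℕ} (hF : F.Finite) :
    ∃ m, ∀ n, m ≤ n → Disjoint (V n) F := by
  obtain ⟨b, hb⟩ := hF.bddAbove
  refine ⟨b + 1, fun n hn => Set.disjoint_left.2 fun x hx hxF => ?_⟩
  have h1 : x ≤ b := hb hxF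
  exact Set.disjoint_left.1 (h.disj n) hx (Set.mem_Iio.2 (by omega))

theorem End.nbr_anti {M : St a} {V : ℕ → Set ℕ} (h : End M V) {v n n' : ℕ} (hv : v < n)
    (hn : n ≤ n') (hm : v ∈ VP.nbr M (V n')) : v ∈ VP.nbr M (V n) := by
  obtain ⟨h1, c, hc, h2⟩ := hm
  exact ⟨fun hv' => Set.disjoint_left.1 (h.disj n) hv' (Set.mem_Iio.2 hv), c, h.anti' hn hc, h2⟩

theorem dom_finite {α : Ordinal.{0}} {K : Set (St a)} (hK : Good α K) {M : St a} (hM : M ∈ K)
    {V : ℕ → Set ℕ} (hV : End M V) : (dom M V).Finite := by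
  by_contra hinf
  obtain ⟨x, hx, y, hy, hxy, F, hF, hxF, hyF, hC⟩ := hK.thin M hM (dom M V) hinf
  obtain ⟨m, hm⟩ := hV.exists_notMem hF
  have hd := hm (max m (max (x + 1) (y + 1))) (le_max_left _ _)
  obtain ⟨-, c, hc, hcx⟩ := hx (max m (max (x + 1) (y + 1)))
    (lt_of_lt_of_le (Nat.lt_succ_self x) (le_trans (le_max_left _ _) (le_max_right _ _)))
  obtain ⟨-, c', hc', hcy⟩ := hy (max m (max (x + 1) (y + 1)))
    (lt_of_lt_of_le (Nat.lt_succ_self y) (le_trans (le_max_right _ _) (le_max_right _ _)))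
  obtain ⟨n, hn⟩ := hV.conn _ c hc c' hc'
  have hn' : Path M F n c c' := hn.mono (Set.subset_compl_iff_disjoint_right.2 hd.symm)
  exact hC ⟨_, Path.cons hxF (hK.symm M hM _ _ hcx)
    (hn'.trans (Path.cons hn'.right_notMem hcy (Path.nil hyF)))⟩

/-- The argument showing that neighbourhoods are not just the dominating vertices. -/
theorem End.exists_ne {M : St a} {V : ℕ → Set ℕ} (h : End M V) {k l u : ℕ}
    (hd : ∀ d ∈ dom M V, d < k) (hkl : k ≤ l) (hu : u ∈ V k) (hul : u < l) :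
    ∃ s ∈ VP.nbr M (V l), s ∉ dom M V := by
  by_contra hcon
  push Not at hcon
  have h1 : Disjoint (V k) (VP.nbr M (V l)) := Set.disjoint_left.2 fun x hx hx' =>
    Set.disjoint_left.1 (h.disj k) hx (Set.mem_Iio.2 (hd x (hcon x hx')))
  have h2 : ¬ Disjoint (V k) (V l) := by
    obtain ⟨z, hz⟩ := h.ne l
    exact fun hdd => Set.disjoint_left.1 hdd (h.anti' hkl hz) hz
  have h3 := (h.conn k).subset_of_meets h1 h2
  exact Set.disjoint_left.1 (h.disj l) (h3 hu) (Set.mem_Iio.2 hul)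

/-- Every end contains a chain, starting at any given level `m` above the dominating vertices at
which the neighbourhood is not just the set of dominating vertices. -/
theorem chain_of_end {α : Ordinal.{0}} {K : Set (St a)} (hK : Good α K) {M : St a} (hM : M ∈ K)
    {V : ℕ → Set ℕ} (hV : End M V) (m : ℕ) (hm : ∀ d ∈ dom M V, d < m)
    (hne : ∃ s ∈ nbr M (V m), s ∉ dom M V) :
    ∃ (U Y : ℕ → Set ℕ) (n : ℕ → ℕ), Chain M (dom M V) U Y ∧ StrictMono n ∧ n 0 = m ∧
      ∀ i, U i = V (n i) := by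
  have key : ∀ k, ∃ l, k < l ∧ (∃ u ∈ V k, u < l) ∧
      ∀ v < k, v ∉ dom M V → ∀ n', l ≤ n' → v ∉ nbr M (V n') := by
    intro k
    obtain ⟨u, hu⟩ := hV.ne k
    have h1 : ∀ v, ∃ b, v ∉ dom M V → ∀ n', b ≤ n' → v ∉ nbr M (V n') := by
      intro v
      by_cases hv : v ∈ dom M V
      · exact ⟨0, fun h => (h hv).elim⟩
      · have hv' : ¬ ∀ n, v < n → v ∈ nbr M (V n) := hv
        push Not at hv'
        obtain ⟨b, hb1, hb2⟩ := hv'
        exact ⟨b, fun _ n' hn' hmem => hb2 (hV.nbr_anti hb1 hn' hmem)⟩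
    choose f hf using h1
    refine ⟨max (max (k + 1) (u + 1)) ((Finset.range k).sup f), ?_, ⟨u, hu, ?_⟩, ?_⟩
    · exact lt_of_lt_of_le (Nat.lt_succ_self k) (le_trans (le_max_left _ _) (le_max_left _ _))
    · exact lt_of_lt_of_le (Nat.lt_succ_self u) (le_trans (le_max_right _ _) (le_max_left _ _))
    · intro v hv hvd n' hn'
      refine hf v hvd n' (le_trans ?_ (le_trans (le_max_right _ _) hn'))
      exact Finset.le_sup (f := f) (Finset.mem_range.2 hv)
  choose g hg1 hg2 hg3 using key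
  let n : ℕ → ℕ := fun i => Nat.rec m (fun _ k => g k) i
  have hn0 : n 0 = m := rfl
  have hns : ∀ i, n (i + 1) = g (n i) := fun i => rfl
  have hmono : StrictMono n := strictMono_nat_of_lt_succ fun i => by rw [hns]; exact hg1 _
  have hmn : ∀ i, m ≤ n i := fun i => by
    rw [← hn0]; exact hmono.monotone (Nat.zero_le i)
  have hdn : ∀ i, ∀ d ∈ dom M V, d < n i := fun i d hd => lt_of_lt_of_le (hm d hd) (hmn i)
  refine ⟨fun i => V (n i), fun i => nbr M (V (n i)) \ dom M V, n, ?_, hmono, hn0, fun i => rfl⟩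
  refine ⟨dom_finite hK hM hV, ?_, ?_, fun i => hV.ne _, fun i => hV.conn _, ?_, ?_, ?_, ?_⟩
  · intro i
    exact (Set.finite_Iio (n i)).subset (Set.sdiff_subset.trans (hV.nbr _))
  · intro i
    cases i with
    | zero =>
      obtain ⟨s, hs1, hs2⟩ := hne
      exact ⟨s, hs1, hs2⟩
    | succ i =>
      obtain ⟨u, hu1, hu2⟩ := hg2 (n i)
      obtain ⟨s, hs1, hs2⟩ := hV.exists_ne (hdn i) (hmono.monotone (Nat.le_succ i)) hu1 hu2
      exact ⟨s, hs1, hs2⟩
  · intro i
    have h1 : dom M V ⊆ nbr M (V (n i)) := fun d hd => hd (n i) (hdn i d hd)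
    exact (Set.union_sdiff_cancel h1).symm
  · intro i
    exact disjoint_sdiff_right
  · rintro i x (hx | ⟨hx1, hx2⟩)
    · exact hV.anti' (hmono.monotone (Nat.le_succ i)) hx
    · have h1 : n i ≤ x := by
        rcases lt_or_ge x (n i) with hlt | hge
        · exact absurd hx1 (hg3 (n i) x hlt hx2 (n (i + 1)) le_rfl)
        · exact hge
      by_contra hxV
      obtain ⟨-, c, hc, hcx⟩ := hx1
      have h2 : x ∈ nbr M (V (n i)) := ⟨hxV, c, hV.anti' (hmono.monotone (Nat.le_succ i)) hc, hcx⟩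
      exact absurd (Set.mem_Iio.1 (hV.nbr _ h2)) (not_lt.2 h1)
  · intro x
    refine ⟨x + 1, fun hx => Set.disjoint_left.1 (hV.disj _) hx (Set.mem_Iio.2 ?_)⟩
    exact lt_of_lt_of_le (Nat.lt_succ_self x) (hmono.le_apply)

/-- Eventually the neighbourhood is not just the set of dominating vertices. -/
theorem exists_ne_dom {α : Ordinal.{0}} {K : Set (St a)} (hK : Good α K) {M : St a} (hM : M ∈ K)
    {V : ℕ → Set ℕ} (hV : End M V) :
    ∃ m, ∀ n, m ≤ n → (∀ d ∈ dom M V, d < n) ∧ ∃ s ∈ nbr M (V n), s ∉ dom M V := by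
  obtain ⟨b, hb⟩ := (dom_finite hK hM hV).bddAbove
  have hb' : ∀ d ∈ dom M V, d < b + 1 := fun d hd => Nat.lt_succ_of_le (hb hd)
  obtain ⟨u, hu⟩ := hV.ne (b + 1)
  refine ⟨max (u + 1) (b + 1), fun n hn => ⟨fun d hd => ?_, ?_⟩⟩
  · exact lt_of_lt_of_le (hb' d hd) (le_trans (le_max_right _ _) hn)
  · exact hV.exists_ne hb' (le_trans (le_max_right _ _) hn) hu
      (lt_of_lt_of_le (Nat.lt_succ_self u) (le_trans (le_max_left _ _) hn))

variable {M : St a} {D : Set ℕ} {U Y : ℕ → Set ℕ}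

theorem Chain.anti (h : Chain M D U Y) {i j : ℕ} (hij : i ≤ j) : U j ⊆ U i :=
  antitone_nat_of_succ_le (fun i => Set.subset_union_left.trans (h.step i)) hij

theorem Chain.le_of_path_aux (h : Chain M D U Y) {n x y : ℕ} (hP : Path M D n x y)
    (hy : y ∈ Y 0) : ∀ i, x ∈ U i ∪ Y i → i ≤ n := by
  induction hP with
  | @nil x hx =>
    intro i hi
    cases i with
    | zero => exact le_rfl
    | succ j =>
      have h1 : x ∈ U 0 := h.anti (Nat.zero_le j) (h.step j hi)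
      have h2 : x ∈ VP.nbr M (U 0) := by rw [h.nbr]; exact Or.inr hy
      exact (h2.1 h1).elim
  | @cons n x x1 z hx hadj hP ih =>
    intro i hi
    cases i with
    | zero => exact Nat.zero_le _
    | succ j =>
      have h1 : x ∈ U j := h.step j hi
      have h2 : x1 ∈ U j ∪ Y j := by
        by_cases hx1 : x1 ∈ U j
        · exact Or.inl hx1
        · have h3 : x1 ∈ VP.nbr M (U j) := ⟨hx1, x, h1, hadj⟩
          rw [h.nbr] at h3
          exact Or.inr (h3.resolve_left hP.left_notMem)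
      exact Nat.succ_le_succ (ih hy j h2)

/-- A chain is a lower bound for distances from `Y 0` in the complement of `D`. -/
theorem Chain.le_of_path (h : Chain M D U Y) (hs : ∀ x y, Adj M x y → Adj M y x)
    {n i y x : ℕ} (hy : y ∈ Y 0) (hx : x ∈ U i ∪ Y i) (hP : Path M D n y x) : i ≤ n :=
  h.le_of_path_aux (hP.symm hs) hy i hx

/-- Every point of `U 0 ∪ Y 0` is reached from `Y 0` through `U 0`. -/
theorem Chain.exists_path (h : Chain M D U Y) (hs : ∀ x y, Adj M x y → Adj M y x)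
    {x : ℕ} (hx : x ∈ U 0 ∪ Y 0) :
    ∃ y ∈ Y 0, ∃ n, Path M (U 0 ∪ {y})ᶜ n y x := by
  rcases hx with hx | hx
  · obtain ⟨y, hy⟩ := h.neY 0
    have h2 : y ∈ VP.nbr M (U 0) := by rw [h.nbr]; exact Or.inr hy
    obtain ⟨-, c, hc, hcy⟩ := h2
    obtain ⟨n, hn⟩ := h.conn 0 c hc x hx
    have hn' : Path M (U 0 ∪ {y})ᶜ n c x :=
      hn.mono (Set.compl_subset_compl.2 Set.subset_union_left)
    exact ⟨y, hy, n + 1, Path.cons (fun h' => h' (Or.inr rfl)) (hs _ _ hcy) hn'⟩
  · exact ⟨x, hx, 0, Path.nil fun h' => h' (Or.inr rfl)⟩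

/-- Subsequences of chains are chains. -/
theorem Chain.subseq (h : Chain M D U Y) {n : ℕ → ℕ} (hn : StrictMono n) :
    Chain M D (U ∘ n) (Y ∘ n) := by
  refine ⟨h.finD, fun i => h.finY _, fun i => h.neY _, fun i => h.ne _, fun i => h.conn _,
    fun i => h.nbr _, fun i => h.disj _, ?_, ?_⟩
  · intro i
    have h1 : n i < n (i + 1) := hn (Nat.lt_succ_self i)
    obtain ⟨k, hk⟩ : ∃ k, n (i + 1) = k + 1 := ⟨n (i + 1) - 1, by omega⟩
    simp only [Function.comp_apply, hk]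
    exact (h.step k).trans (h.anti (by omega))
  · intro x
    obtain ⟨i, hi⟩ := h.inter x
    exact ⟨i, fun hx => hi (h.anti (hn.le_apply) hx)⟩

end Pool.Agent.H899R2.VP
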