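import Pool.Agent.H899R2.VP.Glue
import Pool.Agent.H899R2.VP.Choice

set_option autoImplicit false

/-! A flap containing a big flap is big (task MONO). -/

namespace Pool.Agent.H899R2.VP

open Set

variable {a : ℕ → ℕ}

theorem single_zero (C : Set ℕ) : single C 0 = C := by simp [single]

theorem single_ne (C : Set ℕ) {j : ℕ} (h : j ≠ 0) : single C j = ∅ := by simp [single, h]

theorem nbr_empty (M : St a) : nbr M ∅ = ∅ := by
  ext s; simp [nbr]

theorem cl_empty (M : St a) : cl M ∅ = ∅ := by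
  simp [cl, nbr_empty]

/-- The family with `τ` at `0` and `M` elsewhere. -/
def fam0 (M τ : St a) : ℕ → St a := fun j => if j = 0 then τ else M

theorem fam0_zero (M τ : St a) : fam0 M τ 0 = τ := by simp [fam0]

theorem fam0_bf {α : Ordinal.{0}} {M τ : St a} {C : Set ℕ}
    (h : BF M τ (cl M C) (cl M C) α (idOn (nbr M C))) (j : ℕ) :
    BF M (fam0 M τ j) (cl M (single C j)) (cl M (single C j)) α (idOn (nbr M (single C j))) := by
  by_cases hj : j = 0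
  · subst hj
    rw [single_zero, fam0_zero]
    exact h
  · have h1 : fam0 M τ j = M := by simp [fam0, hj]
    rw [h1]
    exact (BF.refl M (cl M (single C j)) α).subset (idOn_mono subset_union_right)

theorem cl_mono_sub {M : St a} {C V : Set ℕ} (h : C ⊆ V) : cl M C ⊆ cl M V := by
  rintro s (hs | ⟨hs, c, hc, hcs⟩)
  · exact Or.inl (h hs)
  · by_cases hV : s ∈ V
    · exact Or.inl hV
    · exact Or.inr ⟨hV, c, h hc, hcs⟩

theorem iUnion_single (C : Set ℕ) : (⋃ j, single C j) = C := by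
  ext x
  simp only [mem_iUnion]
  constructor
  · rintro ⟨j, hj⟩
    by_cases h : j = 0
    · subst h; rwa [single_zero] at hj
    · rw [single_ne C h] at hj; exact absurd hj (notMem_empty x)
  · intro hx
    exact ⟨0, by rwa [single_zero]⟩

/-- The code of a variation. -/
def MCode (α : Ordinal.{0}) (M : St a) (C V : Set ℕ) (f : ℕ → Tri a) (c0 : ℕ) (Q : Tri a)
    (k : ℕ × Finset (ℕ × ℕ) × ℕ) : Prop :=
  ∃ (τ : St a) (q : Set (ℕ × ℕ)), BF M τ (cl M C) (cl M C) α (idOn (nbr M C)) ∧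
    IsoOn τ Q.1 (cl M C) Q.2.1 Q.2.2 ∧
    PIso (f k.1).1 (glue M (single C) (fam0 M τ)) q ∧ q ⊆ (f k.1).2.1 ×ˢ cl M V ∧
    (∀ x ∈ (f k.1).2.1, ∃ y, (x, y) ∈ q) ∧ (∀ y ∈ cl M V, ∃ x, (x, y) ∈ q) ∧
    (∀ s ∈ nbr M C, ∀ y, (y, s) ∈ q ↔ (s, y) ∈ k.2.1) ∧ (k.2.2, c0) ∈ q

/-- Preservation of a connected set. -/
theorem conn_pres {N1 N2 : St a} {C S : Set ℕ} {r : Set (ℕ × ℕ)} (hr : PIso N1 N2 r)
    (h2 : nbr N2 C = S) (hS : Disjoint S C) (hid : ∀ s ∈ S, (s, s) ∈ r)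
    (htot : ∀ x ∈ C, ∃ y, (x, y) ∈ r) {n x z : ℕ} (hP : Path N1 Cᶜ n x z) :
    ∀ x' z', (x, x') ∈ r → (z, z') ∈ r → x' ∈ C → z' ∈ C := by
  induction hP with
  | nil h =>
    intro x' z' hx hz hx'
    rwa [← hr.snd_eq hx hz rfl]
  | @cons n x y z h h1 h2P ih =>
    intro x' z' hx hz hx'
    have hy : y ∈ C := by
      have := h2P.left_notMem
      simpa using this
    obtain ⟨y', hy'⟩ := htot y hy
    have hadj : Adj N2 x' y' := (hr.adj hx hy').1 h1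
    have hyC : y' ∈ C := by
      by_contra hcon
      have : y' ∈ S := by
        rw [← h2]
        exact ⟨hcon, x', hx', hadj⟩
      have he : y = y' := hr.fst_eq hy' (hid y' this) rfl
      exact (Set.disjoint_left.1 hS this) (he ▸ hy)
    exact ih y' z' hy' hz hyC

theorem iso_of_code {α : Ordinal.{0}} {M : St a} {C V : Set ℕ} {f : ℕ → Tri a} {c0 : ℕ}
    (hα : Ordinal.omega0 + 2 ≤ α) (hC : Flap M C) (hCV : C ⊆ V) (hc0 : c0 ∈ C)
    {Q1 Q2 : Tri a} {k : ℕ × Finset (ℕ × ℕ) × ℕ} (hQ1 : Vari α M C Q1)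
    (h1 : MCode α M C V f c0 Q1 k) (h2 : MCode α M C V f c0 Q2 k) :
    IsoOn Q1.1 Q2.1 Q1.2.1 Q2.2.1 (comp (inv Q1.2.2) Q2.2.2) := by
  obtain ⟨τ1, q1, hb1, hi1, hp1, hs1, ht1, hu1, hP1, hx1⟩ := h1
  obtain ⟨τ2, q2, hb2, hi2, hp2, hs2, ht2, hu2, hP2, hx2⟩ := h2
  have h0α : 0 < α := lt_of_lt_of_le Ordinal.omega0_pos (le_self_add.trans hα)
  have hclV : cl M C ⊆ cl M V := cl_mono_sub hCV
  have hSC : Disjoint (nbr M C) C := Set.disjoint_left.2 fun x hx => hx.1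
  -- facts about the glued structures
  have hn : ∀ τ : St a, BF M τ (cl M C) (cl M C) α (idOn (nbr M C)) →
      nbr (glue M (single C) (fam0 M τ)) C = nbr M C := by
    intro τ hτ
    have := glue_nbr (fam_single (M := M) C) h0α (fam0_bf hτ) 0
    rwa [single_zero] at this
  have hcn : ∀ τ : St a, BF M τ (cl M C) (cl M C) α (idOn (nbr M C)) →
      ConnSet (glue M (single C) (fam0 M τ)) C := by
    intro τ hτ
    have := glue_conn (fam_single (M := M) C) hα (fam0_bf hτ) 0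
    rw [single_zero] at this
    exact this hC.2.1
  have hin : ∀ τ : St a, BF M τ (cl M C) (cl M C) α (idOn (nbr M C)) →
      PIso τ (glue M (single C) (fam0 M τ)) (idOn (cl M C)) := by
    intro τ hτ
    have := glue_in (fam_single (M := M) C) (fam0_bf hτ) 0
    rwa [single_zero, fam0_zero] at this
  set N1 := glue M (single C) (fam0 M τ1) with hN1
  set N2 := glue M (single C) (fam0 M τ2) with hN2
  set r0 := comp (inv q1) q2 with hr0
  have hr : PIso N1 N2 r0 := hp1.symm.comp hp2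
  have hid : ∀ s ∈ nbr M C, (s, s) ∈ r0 := by
    intro s hs
    obtain ⟨y, hy⟩ := hu1 s (hclV (Or.inr hs))
    exact ⟨y, hy, (hP2 s hs y).2 ((hP1 s hs y).1 hy)⟩
  have hc00 : (c0, c0) ∈ r0 := ⟨k.2.2, hx1, hx2⟩
  have htot : ∀ x ∈ cl M V, ∃ y, (x, y) ∈ r0 := by
    intro x hx
    obtain ⟨w, hw⟩ := hu1 x hx
    obtain ⟨y, hy⟩ := ht2 w (hs1 hw).1
    exact ⟨y, w, hw, hy⟩
  have htot' : ∀ y ∈ cl M V, ∃ x, (x, y) ∈ r0 := by
    intro y hy
    obtain ⟨w, hw⟩ := hu2 y hy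
    obtain ⟨x, hx⟩ := ht1 w (hs2 hw).1
    exact ⟨x, w, hx, hw⟩
  have hCC : ∀ x y, (x, y) ∈ r0 → x ∈ C → y ∈ C := by
    intro x y hxy hx
    obtain ⟨n, hn'⟩ := hcn τ1 hb1 c0 hc0 x hx
    exact conn_pres hr (hn τ2 hb2) hSC hid (fun z hz => htot z (hclV (Or.inl hz))) hn' c0 y hc00
      hxy hc0
  have hCC' : ∀ x y, (x, y) ∈ r0 → y ∈ C → x ∈ C := by
    intro x y hxy hy
    obtain ⟨n, hn'⟩ := hcn τ2 hb2 c0 hc0 y hy
    exact conn_pres (r := inv r0) hr.symm (hn τ1 hb1) hSC (fun s hs => hid s hs)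
      (fun z hz => htot' z (hclV (Or.inl hz))) hn' c0 x hc00 hxy hc0
  have hcl : ∀ x y, (x, y) ∈ r0 → (x ∈ cl M C ↔ y ∈ cl M C) := by
    intro x y hxy
    constructor
    · rintro (hx | hx)
      · exact Or.inl (hCC x y hxy hx)
      · rw [← hr.snd_eq (hid x hx) hxy rfl]; exact Or.inr hx
    · rintro (hx | hx)
      · exact Or.inl (hCC' x y hxy hx)
      · rw [← hr.fst_eq (hid y hx) hxy rfl]; exact Or.inr hx
  have hiso : IsoOn τ1 τ2 (cl M C) (cl M C) (idOn (nbr M C)) := by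
    refine ⟨{u ∈ r0 | u.1 ∈ cl M C}, ?_, ?_, ?_, ?_, ?_⟩
    · rintro ⟨s, s'⟩ ⟨he, hs⟩
      simp only at he hs
      subst he
      exact ⟨hid s hs, Or.inr hs⟩
    · rintro ⟨x, y⟩ ⟨hxy, hx⟩
      exact ⟨hx, (hcl x y hxy).1 hx⟩
    · have hh := ((hin τ1 hb1).comp hr).comp (hin τ2 hb2).symm
      refine hh.mono ?_
      rintro ⟨x, y⟩ ⟨hxy, hx⟩
      refine ⟨y, ⟨x, ⟨rfl, hx⟩, hxy⟩, rfl, (hcl x y hxy).1 hx⟩
    · intro x hx
      obtain ⟨y, hy⟩ := htot x (hclV hx)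
      exact ⟨y, hy, hx⟩
    · intro y hy
      obtain ⟨x, hx⟩ := htot' y (hclV hy)
      exact ⟨x, hx, (hcl x y hx).2 hy⟩
  refine ((hi1.symm.trans hiso).trans hi2).mono ?_
  rintro ⟨x, y⟩ ⟨w, hw, hw'⟩
  exact ⟨w, ⟨w, hw, rfl, (hQ1.1 _ hw).1⟩, hw'⟩

theorem big_mono {α : Ordinal.{0}} {K : Set (St a)} (hK : Good α K) {M : St a} (hM : M ∈ K)
    {C V : Set ℕ} (hC : Flap M C) (hV : Flap M V) (hCV : C ⊆ V) (hb : Big α M C) :
    Big α M V := by
  classical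
  intro hsm
  apply hb
  obtain ⟨f, hf, hfs⟩ := hsm
  have hα : Ordinal.omega0 ≤ α := by
    rw [← hK.absorb]; exact le_self_add
  obtain ⟨c0, hc0⟩ := hC.1
  have hclV : cl M C ⊆ cl M V := cl_mono_sub hCV
  have hbase : Vari α M C (M, cl M C, idOn (nbr M C)) := by
    refine ⟨?_, fun s hs => ⟨s, rfl, hs⟩, (BF.refl M (cl M C) α).subset
      (idOn_mono subset_union_right)⟩
    rintro ⟨s, s'⟩ ⟨he, hs⟩
    simp only at he hs
    subst he
    exact ⟨hs, Or.inr hs⟩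
  -- every variation has a code
  have hcode : ∀ Q, Vari α M C Q → ∃ k, MCode α M C V f c0 Q k := by
    intro Q hQ
    obtain ⟨τ, hτ1, hτ2⟩ := exists_transport hα hC.2.2 hQ
    have hW : ∀ j, cl M (single C j) ⊆ cl M V := by
      intro j
      by_cases hj : j = 0
      · subst hj; rw [single_zero]; exact hclV
      · rw [single_ne C hj, cl_empty]; exact empty_subset _
    have hg := glue_bf (hK.symm M hM) (hK.loc M hM) (fam_single (M := M) C) hW (fam0_bf hτ1)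
    rw [iUnion_single] at hg
    have hvar : Vari α M V (glue M (single C) (fam0 M τ), cl M V, idOn (nbr M V)) := by
      refine ⟨?_, fun s hs => ⟨s, rfl, hs⟩, hg.subset (idOn_mono ?_)⟩
      · rintro ⟨s, s'⟩ ⟨he, hs⟩
        simp only at he hs
        subst he
        exact ⟨hs, Or.inr hs⟩
      · intro s hs
        exact ⟨Or.inr hs, fun h => hs.1 (hCV h)⟩
    obtain ⟨n, q, _, hq2, hq3, hq4, hq5⟩ := hfs _ hvar
    simp only at hq2 hq3 hq4 hq5
    have hfinP : {u : ℕ × ℕ | u.1 ∈ nbr M C ∧ (u.2, u.1) ∈ q}.Finite := by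
      have hsub : {u : ℕ × ℕ | u.1 ∈ nbr M C ∧ (u.2, u.1) ∈ q} ⊆
          ⋃ s ∈ nbr M C, {u : ℕ × ℕ | u.1 = s ∧ (u.2, s) ∈ q} := by
        rintro ⟨s, y⟩ ⟨hs, hy⟩
        simp only [mem_iUnion]
        exact ⟨s, hs, rfl, hy⟩
      refine (hC.2.2.biUnion fun s _ => ?_).subset hsub
      apply Set.Subsingleton.finite
      rintro ⟨s1, y1⟩ ⟨hs1, hy1⟩ ⟨s2, y2⟩ ⟨hs2, hy2⟩
      simp only at hs1 hy1 hs2 hy2
      have : y1 = y2 := hq3.fst_eq hy1 hy2 rfl
      rw [hs1, hs2, this]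
    obtain ⟨x', hx'⟩ := hq5 c0 (hclV (Or.inl hc0))
    refine ⟨(n, hfinP.toFinset, x'), τ, q, hτ1, hτ2, hq3, hq2, hq4, hq5, ?_, hx'⟩
    intro s hs y
    simp [hs]
  -- the list
  obtain ⟨e, he⟩ := exists_surjective_nat (ℕ × Finset (ℕ × ℕ) × ℕ)
  set g : ℕ × Finset (ℕ × ℕ) × ℕ → Tri a := fun k =>
    if h : ∃ Q, Vari α M C Q ∧ MCode α M C V f c0 Q k then h.choose
    else (M, cl M C, idOn (nbr M C)) with hg
  have hg1 : ∀ k, Vari α M C (g k) := by
    intro k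
    by_cases h : ∃ Q, Vari α M C Q ∧ MCode α M C V f c0 Q k
    · simp only [hg, dif_pos h]
      exact h.choose_spec.1
    · simp only [hg, dif_neg h]
      exact hbase
  refine ⟨fun m => g (e m), fun m => hg1 _, ?_⟩
  intro Q hQ
  obtain ⟨k, hk⟩ := hcode Q hQ
  obtain ⟨m, hm⟩ := he k
  refine ⟨m, ?_⟩
  simp only [hm]
  have h : ∃ Q, Vari α M C Q ∧ MCode α M C V f c0 Q k := ⟨Q, hQ, hk⟩
  have hgk : MCode α M C V f c0 (g k) k := by
    simp only [hg, dif_pos h]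
    exact h.choose_spec.2
  exact iso_of_code hK.omega_add_two_le hC hCV hc0 (hg1 k) hgk hk

end Pool.Agent.H899R2.VP
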