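import Mathlib

set_option autoImplicit false

/-!
# Vaught's conjecture for structures without an infinite clique subdivision: definitions

Structures live on `ℕ`; they consist of an adjacency relation and relations of arities `a i`.
-/

namespace Pool.Agent.H899R2.VP

open Set

variable {a : ℕ → ℕ}

/-- Structures on `ℕ`: an adjacency relation and, for every `i`, a relation of arity `a i`. -/
abbrev St (a : ℕ → ℕ) : Type := (ℕ → ℕ → Bool) × ((i : ℕ) → (Fin (a i) → ℕ) → Bool)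

/-- Adjacency. -/
def Adj (M : St a) (x y : ℕ) : Prop := M.1 x y = true

/-- A set of pairs is a partial isomorphism. -/
def PIso (M N : St a) (p : Set (ℕ × ℕ)) : Prop :=
  (∀ u ∈ p, ∀ v ∈ p, (u.1 = v.1 ↔ u.2 = v.2)) ∧
  (∀ u ∈ p, ∀ v ∈ p, M.1 u.1 v.1 = N.1 u.2 v.2) ∧
  (∀ (i : ℕ) (t : Fin (a i) → ℕ × ℕ), (∀ k, t k ∈ p) →
    M.2 i (fun k => (t k).1) = N.2 i (fun k => (t k).2))

/-- Back-and-forth equivalence of rank `o` between `(M, X)` and `(N, Y)`, extending `p`. -/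
def BF (M N : St a) (X Y : Set ℕ) (o : Ordinal.{0}) (p : Set (ℕ × ℕ)) : Prop :=
  PIso M N p ∧ ∀ o' : Ordinal.{0}, ∀ _h : o' < o,
    (∀ x ∈ X, ∃ y ∈ Y, BF M N X Y o' (insert (x, y) p)) ∧
    (∀ y ∈ Y, ∃ x ∈ X, BF M N X Y o' (insert (x, y) p))
termination_by o
decreasing_by all_goals exact _h

/-- `(M, X)` and `(N, Y)` are isomorphic by an isomorphism extending `p`. -/
def IsoOn (M N : St a) (X Y : Set ℕ) (p : Set (ℕ × ℕ)) : Prop :=
  ∃ q : Set (ℕ × ℕ), p ⊆ q ∧ q ⊆ X ×ˢ Y ∧ PIso M N q ∧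
    (∀ x ∈ X, ∃ y, (x, y) ∈ q) ∧ (∀ y ∈ Y, ∃ x, (x, y) ∈ q)

/-- Identity pairs on `S`. -/
def idOn (S : Set ℕ) : Set (ℕ × ℕ) := {u | u.1 = u.2 ∧ u.1 ∈ S}

/-- Inverse of a set of pairs. -/
def inv (p : Set (ℕ × ℕ)) : Set (ℕ × ℕ) := {u | (u.2, u.1) ∈ p}

/-- Composition of sets of pairs. -/
def comp (p q : Set (ℕ × ℕ)) : Set (ℕ × ℕ) := {u | ∃ v, (u.1, v) ∈ p ∧ (v, u.2) ∈ q}

/-- The pairs of two lists. -/
def zipSet (s t : List ℕ) : Set (ℕ × ℕ) := {u | u ∈ s.zip t}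

/-- Path with exactly `n` edges from `x` to `y` avoiding `B`. -/
inductive Path (M : St a) (B : Set ℕ) : ℕ → ℕ → ℕ → Prop
  | nil {x : ℕ} (h : x ∉ B) : Path M B 0 x x
  | cons {n x y z : ℕ} (h : x ∉ B) (h1 : Adj M x y) (h2 : Path M B n y z) : Path M B (n + 1) x z

/-- Connected in the complement of `B`. -/
def Conn (M : St a) (B : Set ℕ) (x y : ℕ) : Prop := ∃ n, Path M B n x y

/-- The component of `x` in the complement of `B`. -/
def flapAt (M : St a) (B : Set ℕ) (x : ℕ) : Set ℕ := {y | Conn M B x y}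

/-- Outer neighbourhood. -/
def nbr (M : St a) (C : Set ℕ) : Set ℕ := {s | s ∉ C ∧ ∃ c ∈ C, Adj M c s}

/-- Connected sets. -/
def ConnSet (M : St a) (C : Set ℕ) : Prop := ∀ x ∈ C, ∀ y ∈ C, Conn M Cᶜ x y

/-- Flaps: nonempty connected sets with a finite neighbourhood. -/
def Flap (M : St a) (C : Set ℕ) : Prop := C.Nonempty ∧ ConnSet M C ∧ (nbr M C).Finite

/-- The closed flap. -/
def cl (M : St a) (C : Set ℕ) : Set ℕ := C ∪ nbr M C

/-- Triples: a structure, a domain, and pairs from parameters to the domain. -/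
abbrev Tri (a : ℕ → ℕ) : Type := St a × Set ℕ × Set (ℕ × ℕ)

/-- `Q` is a variation of rank `α` of the flap `C` of `M` (over the neighbourhood of `C`). -/
def Vari (α : Ordinal.{0}) (M : St a) (C : Set ℕ) (Q : Tri a) : Prop :=
  (∀ u ∈ Q.2.2, u.1 ∈ nbr M C ∧ u.2 ∈ Q.2.1) ∧ (∀ s ∈ nbr M C, ∃ y, (s, y) ∈ Q.2.2) ∧
    BF M Q.1 (cl M C) Q.2.1 α Q.2.2

/-- `C` is small: it has only countably many variations up to isomorphism over the
neighbourhood. -/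
def Small (α : Ordinal.{0}) (M : St a) (C : Set ℕ) : Prop :=
  ∃ f : ℕ → Tri a, (∀ n, Vari α M C (f n)) ∧
    ∀ Q, Vari α M C Q → ∃ n, IsoOn (f n).1 Q.1 (f n).2.1 Q.2.1 (comp (inv (f n).2.2) Q.2.2)

/-- `C` is big. -/
def Big (α : Ordinal.{0}) (M : St a) (C : Set ℕ) : Prop := ¬ Small α M C

/-- The standing hypotheses on the class `K`. -/
structure Good (α : Ordinal.{0}) (K : Set (St a)) : Prop where
  meas : MeasurableSet K
  lt : α < Ordinal.omega 1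
  absorb : Ordinal.omega0 + α = α
  closed : ∀ M ∈ K, ∀ N : St a, BF M N univ univ α ∅ → N ∈ K
  symm : ∀ M ∈ K, ∀ x y, Adj M x y → Adj M y x
  loc : ∀ M ∈ K, ∀ i t, M.2 i t = true → ∀ j k, t j = t k ∨ Adj M (t j) (t k)
  thin : ∀ M ∈ K, ∀ X : Set ℕ, X.Infinite → ∃ x ∈ X, ∃ y ∈ X, x ≠ y ∧
    ∃ F : Set ℕ, F.Finite ∧ x ∉ F ∧ y ∉ F ∧ ¬ Conn M F x y
  few : ¬ ∃ g : (ℕ → Bool) → St a, Continuous g ∧ (∀ c, g c ∈ K) ∧
    ∀ c d, IsoOn (g c) (g d) univ univ ∅ → c = d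

end Pool.Agent.H899R2.VP
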