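import Pool.Agent.H899R2.VP.Path

set_option autoImplicit false

/-! Extending an isomorphism of two flaps to an automorphism (task SWAP). -/

namespace Pool.Agent.H899R2.VP

open Set

variable {a : ℕ → ℕ}

/-- every pair of `r` is diagonal or has its first member in a set `E` such that all pairs of `r`
with first member in `cl M E` belong to a partial isomorphism -/
private def SwapCov (M : St a) (r : Set (ℕ × ℕ)) : Prop :=
  ∀ u ∈ r, u.1 = u.2 ∨ ∃ (E : Set ℕ) (q : Set (ℕ × ℕ)), u.1 ∈ E ∧ PIso M M q ∧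
    ∀ v ∈ r, v.1 ∈ cl M E → v ∈ q

private theorem swap_cl {M : St a} {E : Set ℕ} {x y : ℕ} (hx : x ∈ E) (h : Adj M x y) :
    y ∈ cl M E := by
  by_cases hy : y ∈ E
  · exact Or.inl hy
  · exact Or.inr ⟨hy, x, hx, h⟩

private theorem swap_fwd {M : St a} (hs : ∀ x y, Adj M x y → Adj M y x)
    (hl : ∀ i t, M.2 i t = true → ∀ j k, t j = t k ∨ Adj M (t j) (t k)) {r : Set (ℕ × ℕ)}
    (h : SwapCov M r) :
    (∀ u ∈ r, ∀ v ∈ r, u.1 = v.1 → u.2 = v.2) ∧
    (∀ u ∈ r, ∀ v ∈ r, M.1 u.1 v.1 = true → M.1 u.2 v.2 = true) ∧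
    (∀ (i : ℕ) (t : Fin (a i) → ℕ × ℕ), (∀ k, t k ∈ r) →
      M.2 i (fun k => (t k).1) = true → M.2 i (fun k => (t k).2) = true) := by
  refine ⟨?_, ?_, ?_⟩
  · intro u hu v hv huv
    rcases h u hu with h1 | ⟨E, q, hE, hq, hall⟩
    · rcases h v hv with h2 | ⟨E, q, hE, hq, hall⟩
      · rw [← h1, ← h2]; exact huv
      · have hvq : v ∈ q := hall v hv (Or.inl hE)
        have huq : u ∈ q := hall u hu (Or.inl (huv ▸ hE))
        exact (hq.1 u huq v hvq).1 huv
    · have huq : u ∈ q := hall u hu (Or.inl hE)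
      have hvq : v ∈ q := hall v hv (Or.inl (huv ▸ hE))
      exact (hq.1 u huq v hvq).1 huv
  · intro u hu v hv huv
    rcases h u hu with h1 | ⟨E, q, hE, hq, hall⟩
    · rcases h v hv with h2 | ⟨E, q, hE, hq, hall⟩
      · rw [← h1, ← h2]; exact huv
      · have hvq : v ∈ q := hall v hv (Or.inl hE)
        have huq : u ∈ q := hall u hu (swap_cl hE (hs _ _ huv))
        rw [← hq.2.1 u huq v hvq]; exact huv
    · have huq : u ∈ q := hall u hu (Or.inl hE)
      have hvq : v ∈ q := hall v hv (swap_cl hE huv)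
      rw [← hq.2.1 u huq v hvq]; exact huv
  · intro i t ht hM
    by_cases hex : ∃ k, (t k).1 ≠ (t k).2
    · obtain ⟨k, hk⟩ := hex
      rcases h (t k) (ht k) with h1 | ⟨E, q, hE, hq, hall⟩
      · exact absurd h1 hk
      · have hin : ∀ j, t j ∈ q := by
          intro j
          refine hall (t j) (ht j) ?_
          rcases hl i _ hM k j with e | e
          · exact Or.inl (e ▸ hE)
          · exact swap_cl hE e
        rw [← hq.2.2 i t hin]; exact hM
    · push Not at hex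
      have : (fun k => (t k).1) = fun k => (t k).2 := funext hex
      rw [← this]; exact hM

private theorem swap_piso {M : St a} (hs : ∀ x y, Adj M x y → Adj M y x)
    (hl : ∀ i t, M.2 i t = true → ∀ j k, t j = t k ∨ Adj M (t j) (t k)) {r : Set (ℕ × ℕ)}
    (h : SwapCov M r) (h' : SwapCov M (inv r)) : PIso M M r := by
  obtain ⟨a1, a2, a3⟩ := swap_fwd hs hl h
  obtain ⟨b1, b2, b3⟩ := swap_fwd hs hl h'
  refine ⟨?_, ?_, ?_⟩
  · intro u hu v hv
    exact ⟨a1 u hu v hv, b1 (u.2, u.1) hu (v.2, v.1) hv⟩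
  · intro u hu v hv
    have e1 := a2 u hu v hv
    have e2 := b2 (u.2, u.1) hu (v.2, v.1) hv
    simp only at e2
    rw [Bool.eq_iff_iff]
    exact ⟨e1, e2⟩
  · intro i t ht
    have e1 := a3 i t ht
    have e2 := b3 i (fun k => ((t k).2, (t k).1)) ht
    simp only at e2
    rw [Bool.eq_iff_iff]
    exact ⟨e1, e2⟩

/-- `C` and `D` are components of the complement of `F` with the same neighbourhood; an isomorphism
of the closed flaps which is the identity on the neighbourhood extends to an automorphism which is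
the identity on `F`. -/
theorem swap_auto {M : St a} (hs : ∀ x y, Adj M x y → Adj M y x)
    (hl : ∀ i t, M.2 i t = true → ∀ j k, t j = t k ∨ Adj M (t j) (t k)) {F C D : Set ℕ}
    (hC : ConnSet M C) (hD : ConnSet M D) (hCF : Disjoint C F) (hDF : Disjoint D F)
    (hn : nbr M C = nbr M D) (hnF : nbr M C ⊆ F) {x x' : ℕ} (hx : x ∈ C) (hx' : x' ∈ D)
    (h : IsoOn M M (cl M C) (cl M D) (insert (x, x') (idOn (nbr M C)))) :
    IsoOn M M univ univ (insert (x, x') (idOn F)) := by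
  obtain ⟨q, hpq, hqs, hq, ht1, ht2⟩ := h
  have hxq : (x, x') ∈ q := hpq (Or.inl rfl)
  have hid : ∀ s ∈ nbr M C, (s, s) ∈ q := fun s hs' => hpq (Or.inr ⟨rfl, hs'⟩)
  have f1 : ∀ c d, (c, d) ∈ q → (c ∈ C ↔ d ∈ D) := by
    intro c d hcd
    have hm := hqs hcd
    constructor
    · intro hc
      rcases hm.2 with hd | hd
      · exact hd
      · exfalso
        have h1 : (d, d) ∈ q := hid d (hn ▸ hd)
        have h2 : c = d := hq.fst_eq hcd h1 rfl
        have h3 : d ∈ nbr M C := hn ▸ hd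
        exact h3.1 (h2 ▸ hc)
    · intro hd
      rcases hm.1 with hc | hc
      · exact hc
      · exfalso
        have h1 : (c, c) ∈ q := hid c hc
        have h2 : c = d := hq.snd_eq h1 hcd rfl
        have h3 : c ∈ nbr M D := hn ▸ hc
        exact h3.1 (h2 ▸ hd)
  by_cases hCD : Disjoint C D
  · -- swap
    have hdis : ∀ z, z ∈ C → z ∈ D → False := fun z h1 h2 => Set.disjoint_left.1 hCD h1 h2
    set r : Set (ℕ × ℕ) := {u | (u ∈ q ∧ u.1 ∈ C) ∨ ((u.2, u.1) ∈ q ∧ u.2 ∈ C) ∨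
      (u.1 = u.2 ∧ u.1 ∉ C ∧ u.1 ∉ D)} with hr
    have hinv : inv r = r := by
      ext ⟨c, d⟩
      constructor
      · rintro (⟨h1, h2⟩ | ⟨h1, h2⟩ | ⟨h1, h2, h3⟩)
        · exact Or.inr (Or.inl ⟨h1, h2⟩)
        · exact Or.inl ⟨h1, h2⟩
        · simp only at h1 h2 h3
          subst h1
          exact Or.inr (Or.inr ⟨rfl, h2, h3⟩)
      · rintro (⟨h1, h2⟩ | ⟨h1, h2⟩ | ⟨h1, h2, h3⟩)
        · exact Or.inr (Or.inl ⟨h1, h2⟩)
        · exact Or.inl ⟨h1, h2⟩
        · simp only at h1 h2 h3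
          subst h1
          exact Or.inr (Or.inr ⟨rfl, h2, h3⟩)
    have hcov : SwapCov M r := by
      rintro ⟨c, d⟩ (⟨h1, h2⟩ | ⟨h1, h2⟩ | ⟨h1, h2, h3⟩)
      · right
        refine ⟨C, q, h2, hq, ?_⟩
        rintro ⟨e, f⟩ (⟨g1, g2⟩ | ⟨g1, g2⟩ | ⟨g1, g2, g3⟩) hcl
        · exact g1
        · exfalso
          have hD' : e ∈ D := (f1 f e g1).1 g2
          rcases hcl with hc | hc
          · exact hdis e hc hD'
          · have : e ∈ nbr M D := hn ▸ hc
            exact this.1 hD'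
        · simp only at g1 g2 g3
          subst g1
          rcases hcl with hc | hc
          · exact absurd hc g2
          · exact hid e hc
      · right
        refine ⟨D, inv q, (f1 d c h1).1 h2, hq.symm, ?_⟩
        rintro ⟨e, f⟩ (⟨g1, g2⟩ | ⟨g1, g2⟩ | ⟨g1, g2, g3⟩) hcl
        · exfalso
          rcases hcl with hc | hc
          · exact hdis e g2 hc
          · have : e ∈ nbr M C := hn ▸ hc
            exact this.1 g2
        · exact g1
        · simp only at g1 g2 g3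
          subst g1
          rcases hcl with hc | hc
          · exact absurd hc g3
          · exact hid e (hn ▸ hc)
      · left; exact h1
    have htot : ∀ y : ℕ, ∃ z, (y, z) ∈ r := by
      intro y
      by_cases hyC : y ∈ C
      · obtain ⟨z, hz⟩ := ht1 y (Or.inl hyC)
        exact ⟨z, Or.inl ⟨hz, hyC⟩⟩
      · by_cases hyD : y ∈ D
        · obtain ⟨z, hz⟩ := ht2 y (Or.inl hyD)
          exact ⟨z, Or.inr (Or.inl ⟨hz, (f1 z y hz).2 hyD⟩)⟩
        · exact ⟨y, Or.inr (Or.inr ⟨rfl, hyC, hyD⟩)⟩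
    refine ⟨r, ?_, fun u _ => ⟨trivial, trivial⟩,
      swap_piso hs hl hcov (by rw [hinv]; exact hcov), fun y _ => htot y, fun y _ => ?_⟩
    · rintro ⟨c, d⟩ (hcd | ⟨hcd, hcF⟩)
      · rw [hcd]; exact Or.inl ⟨hxq, hx⟩
      · simp only at hcd hcF
        subst hcd
        exact Or.inr (Or.inr ⟨rfl, fun hc => Set.disjoint_left.1 hCF hc hcF,
          fun hc => Set.disjoint_left.1 hDF hc hcF⟩)
    · obtain ⟨z, hz⟩ := htot y
      refine ⟨z, ?_⟩
      rw [← hinv] at hz
      exact hz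
  · -- `C = D`
    have hCD' : C = D := by
      have hnD : nbr M D ⊆ F := hn ▸ hnF
      refine Set.Subset.antisymm ?_ ?_
      · refine hC.subset_of_meets ?_ hCD
        exact hCF.mono_right hnD
      · refine hD.subset_of_meets ?_ (fun hh => hCD hh.symm)
        exact hDF.mono_right hnF
    subst hCD'
    set r : Set (ℕ × ℕ) := {u | (u ∈ q ∧ u.1 ∈ C) ∨ (u.1 = u.2 ∧ u.1 ∉ C)} with hr
    have hcov : SwapCov M r := by
      rintro ⟨c, d⟩ (⟨h1, h2⟩ | ⟨h1, h2⟩)
      · right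
        refine ⟨C, q, h2, hq, ?_⟩
        rintro ⟨e, f⟩ (⟨g1, g2⟩ | ⟨g1, g2⟩) hcl
        · exact g1
        · simp only at g1 g2
          subst g1
          rcases hcl with hc | hc
          · exact absurd hc g2
          · exact hid e hc
      · left; exact h1
    have hcov' : SwapCov M (inv r) := by
      rintro ⟨c, d⟩ (⟨h1, h2⟩ | ⟨h1, h2⟩)
      · right
        refine ⟨C, inv q, (f1 d c h1).1 h2, hq.symm, ?_⟩
        rintro ⟨e, f⟩ (⟨g1, g2⟩ | ⟨g1, g2⟩) hcl
        · exact g1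
        · simp only at g1 g2
          subst g1
          rcases hcl with hc | hc
          · exact absurd hc g2
          · exact hid f hc
      · left; exact h1.symm
    refine ⟨r, ?_, fun u _ => ⟨trivial, trivial⟩, swap_piso hs hl hcov hcov', fun y _ => ?_,
      fun y _ => ?_⟩
    · rintro ⟨c, d⟩ (hcd | ⟨hcd, hcF⟩)
      · rw [hcd]; exact Or.inl ⟨hxq, hx⟩
      · simp only at hcd hcF
        subst hcd
        exact Or.inr ⟨rfl, fun hc => Set.disjoint_left.1 hCF hc hcF⟩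
    · by_cases hyC : y ∈ C
      · obtain ⟨z, hz⟩ := ht1 y (Or.inl hyC)
        exact ⟨z, Or.inl ⟨hz, hyC⟩⟩
      · exact ⟨y, Or.inr ⟨rfl, hyC⟩⟩
    · by_cases hyC : y ∈ C
      · obtain ⟨z, hz⟩ := ht2 y (Or.inl hyC)
        exact ⟨z, Or.inl ⟨hz, (f1 z y hz).2 hyC⟩⟩
      · exact ⟨y, Or.inr ⟨rfl, hyC⟩⟩

end Pool.Agent.H899R2.VP
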