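import Pool.Agent.H899R2.VP.Ext

set_option autoImplicit false

/-! The main theorem for good classes (task MAIN). -/

namespace Pool.Agent.H899R2.VP

open Set

variable {a : ℕ → ℕ}

theorem main_zipSet_finite (s t : List ℕ) : (zipSet s t).Finite := by
  unfold zipSet
  exact (s.zip t).finite_toSet

theorem main_exists_zip {r : Set (ℕ × ℕ)} (hr : r.Finite) :
    ∃ u v : List ℕ, u.length = v.length ∧ zipSet u v = r := by
  have key : ∀ l : List (ℕ × ℕ), (l.map Prod.fst).zip (l.map Prod.snd) = l := by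
    intro l
    induction l with
    | nil => rfl
    | cons x l ih => simp [ih]
  refine ⟨hr.toFinset.toList.map Prod.fst, hr.toFinset.toList.map Prod.snd, by simp, ?_⟩
  ext u
  unfold zipSet
  rw [key]
  simp

theorem main_comp_zip (u' v u : List ℕ) (h1 : u'.length = v.length) (h2 : u.length = v.length) :
    ∀ x y, (x, y) ∈ zipSet u' u → ∃ z, (x, z) ∈ zipSet u' v ∧ (y, z) ∈ zipSet u v := by
  induction u' generalizing v u with
  | nil => intro x y h; simp [zipSet] at h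
  | cons x' u' ih =>
    cases v with
    | nil => simp at h1
    | cons z' v =>
      cases u with
      | nil => simp at h2
      | cons y' u =>
        intro x y h
        simp only [zipSet_cons] at h ⊢
        rcases h with h | h
        · obtain ⟨rfl, rfl⟩ := Prod.ext_iff.1 h
          exact ⟨z', Or.inl rfl, Or.inl rfl⟩
        · obtain ⟨z, hz1, hz2⟩ := ih v u (by simpa using h1) (by simpa using h2) x y h
          exact ⟨z, Or.inr hz1, Or.inr hz2⟩

theorem main_comp_zip' (u' v u : List ℕ) (h1 : u'.length = v.length) (h2 : u.length = v.length) :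
    ∀ y z, (y, z) ∈ zipSet u v → ∃ x, (x, y) ∈ zipSet u' u ∧ (x, z) ∈ zipSet u' v := by
  induction u' generalizing v u with
  | nil =>
    cases v with
    | nil => intro y z h; simp [zipSet] at h
    | cons z' v => simp at h1
  | cons x' u' ih =>
    cases v with
    | nil => simp at h1
    | cons z' v =>
      cases u with
      | nil => simp at h2
      | cons y' u =>
        intro y z h
        simp only [zipSet_cons] at h ⊢
        rcases h with h | h
        · obtain ⟨rfl, rfl⟩ := Prod.ext_iff.1 h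
          exact ⟨x', Or.inl rfl, Or.inl rfl⟩
        · obtain ⟨x, hx1, hx2⟩ := ih v u (by simpa using h1) (by simpa using h2) y z h
          exact ⟨x, Or.inr hx1, Or.inr hx2⟩

/-- The step of the back-and-forth system: there are a list `w` and a total automorphism `q`. -/
theorem main_step {ν : Ordinal.{0}} {M N : St a} {F : Set ℕ} (hF : F.Finite)
    (h : ∀ p : Set (ℕ × ℕ), p.Finite → idOn F ⊆ p → BF M M univ univ ν p →
        IsoOn M M univ univ p) {r0 : Set (ℕ × ℕ)}
    (h0 : BF M N univ univ (ν + Ordinal.omega0) r0) (hr0 : ∀ x ∈ F, ∃ y, (x, y) ∈ r0)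
    {r : Set (ℕ × ℕ)} (hr : r.Finite) (hr0r : r0 ⊆ r) (hb : BF M N univ univ ν r) :
    ∃ q : Set (ℕ × ℕ), ∃ p : Set (ℕ × ℕ), PIso M M q ∧ (∀ x, ∃ y, (x, y) ∈ q) ∧
      (∀ y, ∃ x, (x, y) ∈ q) ∧ BF M N univ univ (ν + 1) p ∧
      ∀ y z, (y, z) ∈ r → ∃ x, (x, y) ∈ q ∧ (x, z) ∈ p := by
  obtain ⟨u, v, huv, rfl⟩ := main_exists_zip hr
  have h1 : BF M N univ univ ((ν + 1) + (v.length : Ordinal.{0})) r0 := by
    refine h0.mono ?_
    rw [add_assoc]
    gcongr
    have : (1 : Ordinal.{0}) + (v.length : Ordinal.{0}) = ((1 + v.length : ℕ) : Ordinal.{0}) := by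
      push_cast; rfl
    rw [this]
    exact (Ordinal.natCast_lt_omega0 _).le
  obtain ⟨u', hu', -, hb'⟩ := h1.back_list v le_rfl (fun _ _ => mem_univ _)
  have hbν : BF M N univ univ ν (r0 ∪ zipSet u' v) := hb'.mono le_self_add
  have hc := hbν.comp hb.symm
  have hsub : idOn F ∪ zipSet u' u ⊆ comp (r0 ∪ zipSet u' v) (inv (zipSet u v)) := by
    rintro ⟨x, y⟩ (hx | hx)
    · obtain ⟨hxy, hxF⟩ := hx
      simp only at hxy hxF
      subst hxy
      obtain ⟨z, hz⟩ := hr0 x hxF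
      exact ⟨z, Or.inl hz, hr0r hz⟩
    · obtain ⟨z, hz1, hz2⟩ := main_comp_zip u' v u hu' huv x y hx
      exact ⟨z, Or.inr hz1, hz2⟩
  have hfin : (idOn F ∪ zipSet u' u).Finite := by
    refine Set.Finite.union ?_ (main_zipSet_finite _ _)
    refine (hF.image (fun x => (x, x))).subset ?_
    rintro ⟨x, y⟩ ⟨hxy, hxF⟩
    simp only at hxy hxF
    subst hxy
    exact ⟨x, hxF, rfl⟩
  obtain ⟨q, hq1, -, hq3, hq4, hq5⟩ := h _ hfin subset_union_left (hc.subset hsub)
  refine ⟨q, r0 ∪ zipSet u' v, hq3, fun x => hq4 x (mem_univ _), fun y => hq5 y (mem_univ _),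
    hb', ?_⟩
  intro y z hyz
  obtain ⟨x, hx1, hx2⟩ := main_comp_zip' u' v u hu' huv y z hyz
  exact ⟨x, hq1 (Or.inr hx1), Or.inr hx2⟩

/-- Low Scott rank over finite sets: rank `ν + ω + ω` equivalence implies isomorphism. -/
theorem iso_of_bf {ν : Ordinal.{0}} {M N : St a} {F : Set ℕ} (hF : F.Finite)
    (h : ∀ p : Set (ℕ × ℕ), p.Finite → idOn F ⊆ p → BF M M univ univ ν p →
        IsoOn M M univ univ p)
    (hb : BF M N univ univ (ν + Ordinal.omega0 + Ordinal.omega0) ∅) :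
    IsoOn M N univ univ ∅ := by
  have h1 : BF M N univ univ (ν + Ordinal.omega0 + ((hF.toFinset.toList.length : ℕ) :
      Ordinal.{0})) ∅ := BF_add_omega.1 hb _
  obtain ⟨t, ht, -, hb0⟩ := h1.forth_list hF.toFinset.toList le_rfl (fun _ _ => mem_univ _)
  rw [empty_union] at hb0
  set r0 : Set (ℕ × ℕ) := zipSet hF.toFinset.toList t with hr0def
  have hr0 : ∀ x ∈ F, ∃ y, (x, y) ∈ r0 := by
    intro x hx
    exact exists_zipSet_left ht.symm (by simpa using hx)
  have hr0fin : r0.Finite := main_zipSet_finite _ _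
  refine IsoOn.mono (q := r0) ?_ (empty_subset _)
  refine isoOn_of_system {r | r.Finite ∧ r0 ⊆ r ∧ BF M N univ univ ν r}
    ⟨hr0fin, Subset.rfl, hb0.mono le_self_add⟩
    (fun q hq => ⟨hq.2.2.piso, fun u _ => ⟨mem_univ _, mem_univ _⟩⟩) ?_ ?_
  · rintro r ⟨hr, hr0r, hbr⟩ x -
    obtain ⟨q, p, hq, hq1, hq2, hp, hqp⟩ := main_step hF h hb0 hr0 hr hr0r hbr
    obtain ⟨x', hx'⟩ := hq2 x
    have hlt : ν < ν + 1 := lt_add_one ν
    obtain ⟨y, -, hy⟩ := hp.forth hlt (mem_univ x')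
    have hqb : BF M M univ univ ν (inv q) :=
      BF_of_total (fun u _ => ⟨mem_univ _, mem_univ _⟩) hq.symm
        (fun x _ => hq2 x) (fun y _ => hq1 y)
    refine ⟨insert (x, y) r, ⟨hr.insert _, hr0r.trans (subset_insert _ _), ?_⟩,
      subset_insert _ _, y, mem_insert _ _⟩
    refine (hqb.comp hy).subset ?_
    rintro ⟨u, v⟩ (huv | huv)
    · obtain ⟨rfl, rfl⟩ := Prod.ext_iff.1 huv
      exact ⟨x', hx', Or.inl rfl⟩
    · obtain ⟨w, hw1, hw2⟩ := hqp u v huv
      exact ⟨w, hw1, Or.inr hw2⟩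
  · rintro r ⟨hr, hr0r, hbr⟩ y -
    obtain ⟨q, p, hq, hq1, hq2, hp, hqp⟩ := main_step hF h hb0 hr0 hr hr0r hbr
    have hlt : ν < ν + 1 := lt_add_one ν
    obtain ⟨x', -, hy⟩ := hp.back hlt (mem_univ y)
    obtain ⟨x, hx'⟩ := hq1 x'
    have hqb : BF M M univ univ ν (inv q) :=
      BF_of_total (fun u _ => ⟨mem_univ _, mem_univ _⟩) hq.symm
        (fun x _ => hq2 x) (fun y _ => hq1 y)
    refine ⟨insert (x, y) r, ⟨hr.insert _, hr0r.trans (subset_insert _ _), ?_⟩,
      subset_insert _ _, x, mem_insert _ _⟩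
    refine (hqb.comp hy).subset ?_
    rintro ⟨u, v⟩ (huv | huv)
    · obtain ⟨rfl, rfl⟩ := Prod.ext_iff.1 huv
      exact ⟨x', hx', Or.inl rfl⟩
    · obtain ⟨w, hw1, hw2⟩ := hqp u v huv
      exact ⟨w, hw1, Or.inr hw2⟩

/-- A good class has only countably many isomorphism types. -/
theorem good_countable {α : Ordinal.{0}} {K : Set (St a)} (hK : Good α K) :
    ∃ f : ℕ → St a, ∀ M ∈ K, ∃ n, IsoOn M (f n) univ univ ∅ := by
  classical
  obtain ⟨ν, hν, hF⟩ := auto_of_bf hK
  have hω : Ordinal.omega0 < Ordinal.omega 1 := by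
    rw [← Ordinal.omega_zero]
    exact Ordinal.omega_lt_omega.2 zero_lt_one
  have hp := Ordinal.isPrincipal_add_omega 1
  have hβ : ν + Ordinal.omega0 + Ordinal.omega0 < Ordinal.omega 1 := hp (hp hν hω) hω
  obtain ⟨c, hc⟩ := labels hK.meas hK.few _ hβ
  let f : ℕ → St a := fun n =>
    if hn : ∃ M ∈ K, c M [] = n then hn.choose else (fun _ _ => false, fun _ _ => false)
  refine ⟨f, fun M hM => ⟨c M [], ?_⟩⟩
  have hn : ∃ M' ∈ K, c M' [] = c M [] := ⟨M, hM, rfl⟩
  have hf : f (c M []) = hn.choose := by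
    simp only [f]
    rw [dif_pos hn]
  obtain ⟨h1, h2⟩ := hn.choose_spec
  rw [hf]
  have hb := hc M hM _ h1 [] [] rfl h2.symm
  rw [zipSet_nil_left] at hb
  obtain ⟨F, hFfin, hF'⟩ := hF M hM
  exact iso_of_bf hFfin hF' hb

end Pool.Agent.H899R2.VP
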